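import Mathlib

/-!
Definitions for problem MP_ba8092_nt: Cantor series expansions, normality of order `k`,
distribution normality.  All sequences are indexed as in the problem file: `q n`, `E n` for
`n ≥ 1` (the values `q 0` and `E 0` are never used).
-/

set_option autoImplicit false
open Filter Topology

namespace Pool.Agent.Helper1.Cantor

/-- `q = (q_n)_{n ≥ 1}` is a basic sequence: every `q_n` is an integer `≥ 2`. -/
def IsBasic (q : ℕ → ℕ) : Prop := ∀ n, 1 ≤ n → 2 ≤ q n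

/-- `q` is infinite in limit: `q_n → ∞`. -/
def InfiniteInLimit (q : ℕ → ℕ) : Prop := Tendsto q atTop atTop

/-- `E_1, E_2, …` are the digits of the `Q`-Cantor series expansion of the real number `x`:
`E_n ∈ {0, …, q_n - 1}`, `E_n ≠ q_n - 1` for infinitely many `n`, and
`x = ⌊x⌋ + ∑_{n ≥ 1} E_n / (q_1 ⋯ q_n)`. -/
structure IsExpansion (q E : ℕ → ℕ) (x : ℝ) : Prop where
  digit_lt : ∀ n, 1 ≤ n → E n < q n
  frequently_ne : ∃ᶠ n in atTop, E n ≠ q n - 1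
  hasSum : HasSum (fun n : ℕ => (E (n + 1) : ℝ) / ∏ i ∈ Finset.Icc 1 (n + 1), (q i : ℝ))
    (x - (⌊x⌋ : ℝ))

/-- `N_n^Q(B, x)`: the number of `i ∈ {1, …, n}` with `(E_i, …, E_{i+k-1}) = B`. -/
def blockCount (E : ℕ → ℕ) {k : ℕ} (B : Fin k → ℕ) (n : ℕ) : ℕ :=
  (Finset.filter (fun i => ∀ s : Fin k, E (i + s) = B s) (Finset.Icc 1 n)).card

/-- `Q_n^{(k)} = ∑_{j=1}^n 1 / (q_j q_{j+1} ⋯ q_{j+k-1})`. -/
noncomputable def blockMass (q : ℕ → ℕ) (k n : ℕ) : ℝ :=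
  ∑ j ∈ Finset.Icc 1 n, 1 / ∏ s ∈ Finset.range k, (q (j + s) : ℝ)

/-- `q` is fully divergent: `Q_n^{(k)} → ∞` for every `k ≥ 1`. -/
def FullyDivergent (q : ℕ → ℕ) : Prop := ∀ k, 1 ≤ k → Tendsto (blockMass q k) atTop atTop

/-- `𝒩_k(Q)`: the set of real numbers that are `Q`-normal of order `k`, that is,
`N_n^Q(B, x) / Q_n^{(k)} → 1` for every block `B` of length `k`. -/
def NormalOrder (q : ℕ → ℕ) (k : ℕ) : Set ℝ :=
  {x | ∃ E : ℕ → ℕ, IsExpansion q E x ∧ ∀ B : Fin k → ℕ,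
    Tendsto (fun n => (blockCount E B n : ℝ) / blockMass q k n) atTop (𝓝 1)}

/-- `𝒩(Q) = ⋂_{k ≥ 1} 𝒩_k(Q)`: the set of `Q`-normal numbers. -/
def QNormal (q : ℕ → ℕ) : Set ℝ := {x | ∀ k, 1 ≤ k → x ∈ NormalOrder q k}

/-- `T_{Q,n}(x) = q_1 ⋯ q_n x mod 1`. -/
noncomputable def shiftMap (q : ℕ → ℕ) (n : ℕ) (x : ℝ) : ℝ :=
  Int.fract ((∏ j ∈ Finset.Icc 1 n, (q j : ℝ)) * x)

/-- The sequence `(u_n)_{n ≥ 0}` is uniformly distributed modulo 1: for `0 ≤ a < b ≤ 1` the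
proportion of `n < N` with fractional part of `u_n` in `[a, b)` tends to `b - a`. -/
def IsUniformlyDistributedModOne (u : ℕ → ℝ) : Prop :=
  ∀ a b : ℝ, 0 ≤ a → a < b → b ≤ 1 →
    Tendsto (fun N : ℕ => (Nat.card {n : ℕ // n < N ∧ Int.fract (u n) ∈ Set.Ico a b} : ℝ) / N)
      atTop (𝓝 (b - a))

/-- `𝒟𝒩(Q)`: the set of `Q`-distribution normal real numbers. -/
def DistNormal (q : ℕ → ℕ) : Set ℝ :=
  {x | IsUniformlyDistributedModOne (fun n => shiftMap q n x)}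

end Pool.Agent.Helper1.Cantor
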