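import Mathlib
import Pool.Agent.Helper1.CantorDefs

set_option autoImplicit false
open Filter Topology Finset

namespace Pool.Agent.Helper1.Cantor

/-- `Π_n = q_1 ⋯ q_n`. -/
def cumProd (q : ℕ → ℕ) (n : ℕ) : ℕ := ∏ i ∈ Finset.Icc 1 n, q i

/-- `V_n = ⌊Π_n x⌋` in terms of the digits. -/
def cumVal (q E : ℕ → ℕ) : ℕ → ℕ
  | 0 => 0
  | n + 1 => cumVal q E n * q (n + 1) + E (n + 1)

lemma cumProd_zero (q : ℕ → ℕ) : cumProd q 0 = 1 := by simp [cumProd]

lemma cumProd_succ (q : ℕ → ℕ) (n : ℕ) : cumProd q (n + 1) = cumProd q n * q (n + 1) := by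
  unfold cumProd
  rw [Finset.prod_Icc_succ_top (by omega)]

lemma cumProd_cast (q : ℕ → ℕ) (n : ℕ) : (cumProd q n : ℝ) = ∏ i ∈ Finset.Icc 1 n, (q i : ℝ) := by
  simp [cumProd]

lemma cumProd_pos {q : ℕ → ℕ} (hq : IsBasic q) (n : ℕ) : 0 < cumProd q n := by
  unfold cumProd
  apply Finset.prod_pos
  intro i hi
  have := hq i (Finset.mem_Icc.1 hi).1
  omega

/-- the `n`-th term of the expansion. -/
noncomputable def term (q E : ℕ → ℕ) (n : ℕ) : ℝ := (E (n + 1) : ℝ) / ∏ i ∈ Finset.Icc 1 (n + 1), (q i : ℝ)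

noncomputable def cantorSum (q E : ℕ → ℕ) : ℝ := ∑' n, term q E n

lemma term_eq (q E : ℕ → ℕ) (n : ℕ) : term q E n = (E (n + 1) : ℝ) / (cumProd q (n + 1) : ℝ) := by
  rw [term, cumProd_cast]

lemma term_nonneg (q E : ℕ → ℕ) (n : ℕ) : 0 ≤ term q E n := by
  rw [term_eq]; positivity

lemma sum_term {q : ℕ → ℕ} (hq : IsBasic q) (E : ℕ → ℕ) (N : ℕ) :
    ∑ n ∈ range N, term q E n = (cumVal q E N : ℝ) / (cumProd q N : ℝ) := by
  induction N with
  | zero => simp [cumVal]
  | succ N ih =>
    rw [Finset.sum_range_succ, ih, term_eq]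
    have h1 : (0:ℝ) < cumProd q N := by exact_mod_cast cumProd_pos hq N
    have h2 : (0:ℝ) < q (N + 1) := by
      have := hq (N+1) (by omega)
      exact_mod_cast (by omega : 0 < q (N+1))
    rw [cumProd_succ]
    simp only [cumVal]
    push_cast
    field_simp

lemma cumVal_lt {q E : ℕ → ℕ} (hE : ∀ n, 1 ≤ n → E n < q n) (N : ℕ) :
    cumVal q E N + 1 ≤ cumProd q N := by
  induction N with
  | zero => simp [cumVal, cumProd]
  | succ N ih =>
    rw [cumProd_succ]
    simp only [cumVal]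
    have h := hE (N + 1) (by omega)
    calc cumVal q E N * q (N + 1) + E (N + 1) + 1 ≤ cumVal q E N * q (N + 1) + q (N+1) := by omega
      _ = (cumVal q E N + 1) * q (N + 1) := by ring
      _ ≤ _ := Nat.mul_le_mul_right _ ih

lemma summable_term {q E : ℕ → ℕ} (hq : IsBasic q) (hE : ∀ n, 1 ≤ n → E n < q n) :
    Summable (term q E) := by
  apply summable_of_sum_range_le (c := 1) (term_nonneg q E)
  intro N
  rw [sum_term hq]
  have h1 : (0:ℝ) < cumProd q N := by exact_mod_cast cumProd_pos hq N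
  rw [div_le_one h1]
  have := cumVal_lt hE N
  exact_mod_cast (by omega : cumVal q E N ≤ cumProd q N)

lemma le_cantorSum {q E : ℕ → ℕ} (hq : IsBasic q) (hE : ∀ n, 1 ≤ n → E n < q n) (N : ℕ) :
    (cumVal q E N : ℝ) / (cumProd q N : ℝ) ≤ cantorSum q E := by
  rw [← sum_term hq]
  exact (summable_term hq hE).sum_le_tsum _ (fun i _ => term_nonneg q E i)

lemma upper_antitone {q E : ℕ → ℕ} (hq : IsBasic q) (hE : ∀ n, 1 ≤ n → E n < q n) :
    Antitone (fun N => ((cumVal q E N : ℝ) + 1) / (cumProd q N : ℝ)) := by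
  apply antitone_nat_of_succ_le
  intro N
  have h1 : (0:ℝ) < cumProd q N := by exact_mod_cast cumProd_pos hq N
  have h2 : (0:ℝ) < q (N + 1) := by
    have := hq (N+1) (by omega)
    exact_mod_cast (by omega : 0 < q (N+1))
  have h3 : (E (N + 1) : ℝ) + 1 ≤ q (N + 1) := by exact_mod_cast hE (N + 1) (by omega)
  rw [cumProd_succ]
  simp only [cumVal]
  push_cast
  rw [div_le_div_iff₀ (by positivity) h1]
  nlinarith [mul_pos h1 h2]

lemma cantorSum_le {q E : ℕ → ℕ} (hq : IsBasic q) (hE : ∀ n, 1 ≤ n → E n < q n) (N : ℕ) :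
    cantorSum q E ≤ ((cumVal q E N : ℝ) + 1) / (cumProd q N : ℝ) := by
  have hlim := (summable_term hq hE).hasSum.tendsto_sum_nat
  refine le_of_tendsto hlim ?_
  filter_upwards [eventually_ge_atTop N] with M hM
  rw [sum_term hq]
  have h1 : (0:ℝ) < cumProd q M := by exact_mod_cast cumProd_pos hq M
  calc (cumVal q E M : ℝ) / (cumProd q M : ℝ) ≤ ((cumVal q E M : ℝ) + 1) / (cumProd q M : ℝ) := by
        gcongr; linarith
    _ ≤ _ := upper_antitone hq hE hM

lemma cantorSum_lt {q E : ℕ → ℕ} (hq : IsBasic q) (hE : ∀ n, 1 ≤ n → E n < q n)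
    (hf : ∃ᶠ n in atTop, E n ≠ q n - 1) (N : ℕ) :
    cantorSum q E < ((cumVal q E N : ℝ) + 1) / (cumProd q N : ℝ) := by
  obtain ⟨m, hm, hmE⟩ := (frequently_atTop.1 hf) (N + 1)
  obtain ⟨M, rfl⟩ : ∃ M, m = M + 1 := ⟨m - 1, by omega⟩
  have hNM : N ≤ M := by omega
  refine lt_of_lt_of_le (lt_of_le_of_lt (cantorSum_le hq hE (M+1)) ?_) (upper_antitone hq hE hNM)
  have h1 : (0:ℝ) < cumProd q M := by exact_mod_cast cumProd_pos hq M
  have h2 : (0:ℝ) < q (M + 1) := by
    have := hq (M+1) (by omega)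
    exact_mod_cast (by omega : 0 < q (M+1))
  have h3 : (E (M + 1) : ℝ) + 1 < q (M + 1) := by
    have := hE (M + 1) (by omega)
    exact_mod_cast (by omega : E (M+1) + 1 < q (M+1))
  simp only [cumProd_succ, cumVal]
  push_cast
  rw [div_lt_div_iff₀ (by positivity) h1]
  nlinarith [mul_pos h1 h2]

lemma cantorSum_mem {q E : ℕ → ℕ} (hq : IsBasic q) (hE : ∀ n, 1 ≤ n → E n < q n)
    (hf : ∃ᶠ n in atTop, E n ≠ q n - 1) : 0 ≤ cantorSum q E ∧ cantorSum q E < 1 := by
  refine ⟨tsum_nonneg (term_nonneg q E), ?_⟩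
  have := cantorSum_lt hq hE hf 0
  simpa [cumVal, cumProd_zero] using this

/-- A sequence of valid digits is the expansion of its sum. -/
lemma isExpansion_cantorSum {q E : ℕ → ℕ} (hq : IsBasic q) (hE : ∀ n, 1 ≤ n → E n < q n)
    (hf : ∃ᶠ n in atTop, E n ≠ q n - 1) : IsExpansion q E (cantorSum q E) where
  digit_lt := hE
  frequently_ne := hf
  hasSum := by
    have h := cantorSum_mem hq hE hf
    have h0 : ⌊cantorSum q E⌋ = 0 := by rw [Int.floor_eq_zero_iff]; exact ⟨h.1, h.2⟩
    rw [h0]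
    have h1 := (summable_term hq hE).hasSum
    have h2 : cantorSum q E - ((0 : ℤ) : ℝ) = ∑' n, term q E n := by simp [cantorSum]
    rw [h2]
    exact h1

lemma IsExpansion.cantorSum_eq {q E : ℕ → ℕ} {x : ℝ} (h : IsExpansion q E x) :
    cantorSum q E = x - ⌊x⌋ := h.hasSum.tsum_eq

lemma cumVal_eq_floor {q E : ℕ → ℕ} (hq : IsBasic q) (hE : ∀ n, 1 ≤ n → E n < q n)
    (hf : ∃ᶠ n in atTop, E n ≠ q n - 1) (N : ℕ) :
    cumVal q E N = ⌊cantorSum q E * cumProd q N⌋₊ := by
  have h1 : (0:ℝ) < cumProd q N := by exact_mod_cast cumProd_pos hq N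
  symm
  rw [Nat.floor_eq_iff (by have := (cantorSum_mem hq hE hf).1; positivity)]
  constructor
  · have := le_cantorSum hq hE N
    rwa [div_le_iff₀ h1] at this
  · have := cantorSum_lt hq hE hf N
    rwa [lt_div_iff₀ h1] at this

lemma digit_eq_of_cumVal {q E : ℕ → ℕ} (n : ℕ) :
    E (n + 1) = cumVal q E (n + 1) - cumVal q E n * q (n + 1) := by
  simp [cumVal]

/-- Uniqueness of the Cantor series expansion. -/
theorem IsExpansion.unique {q E E' : ℕ → ℕ} {x : ℝ} (hq : IsBasic q) (h : IsExpansion q E x)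
    (h' : IsExpansion q E' x) (n : ℕ) (hn : 1 ≤ n) : E n = E' n := by
  have hV : ∀ N, cumVal q E N = cumVal q E' N := by
    intro N
    rw [cumVal_eq_floor hq h.digit_lt h.frequently_ne, cumVal_eq_floor hq h'.digit_lt h'.frequently_ne,
      h.cantorSum_eq, h'.cantorSum_eq]
  obtain ⟨m, rfl⟩ : ∃ m, n = m + 1 := ⟨n - 1, by omega⟩
  rw [digit_eq_of_cumVal (q := q) (E := E), digit_eq_of_cumVal (q := q) (E := E'), hV, hV]

/-- Existence of the Cantor series expansion (not used below; a check on the definition). -/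
theorem exists_isExpansion {q : ℕ → ℕ} (hq : IsBasic q) (x : ℝ) : ∃ E, IsExpansion q E x := by
  set y : ℝ := Int.fract x with hy
  have hy0 : 0 ≤ y := Int.fract_nonneg x
  have hy1 : y < 1 := Int.fract_lt_one x
  set W : ℕ → ℕ := fun n => ⌊y * cumProd q n⌋₊ with hW
  have hle : ∀ n, W n * q (n + 1) ≤ W (n + 1) := by
    intro n
    simp only [hW]
    apply Nat.le_floor
    rw [cumProd_succ]
    push_cast
    have h1 : ((⌊y * cumProd q n⌋₊ : ℕ) : ℝ) ≤ y * cumProd q n := Nat.floor_le (by positivity)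
    calc ((⌊y * cumProd q n⌋₊ : ℕ) : ℝ) * (q (n+1) : ℝ) ≤ (y * cumProd q n) * q (n + 1) := by gcongr
      _ = y * (cumProd q n * q (n+1)) := by ring
  have hlt : ∀ n, W (n + 1) < (W n + 1) * q (n + 1) := by
    intro n
    simp only [hW]
    rw [Nat.floor_lt (by positivity), cumProd_succ]
    push_cast
    have h2 : (0:ℝ) < q (n + 1) := by
      have := hq (n+1) (by omega)
      exact_mod_cast (by omega : 0 < q (n+1))
    have h1 : y * cumProd q n < (⌊y * cumProd q n⌋₊ : ℝ) + 1 := Nat.lt_floor_add_one _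
    calc y * (cumProd q n * q (n+1)) = (y * cumProd q n) * q (n + 1) := by ring
      _ < ((⌊y * cumProd q n⌋₊ : ℝ) + 1) * q (n + 1) := by gcongr
  set E : ℕ → ℕ := fun n => W n - W (n - 1) * q n with hE
  have hcum : ∀ n, cumVal q E n = W n := by
    intro n
    induction n with
    | zero =>
      simp only [cumVal, hW, cumProd_zero]
      symm
      rw [Nat.floor_eq_zero]
      simpa using hy1
    | succ n ih =>
      have h1 := hle n
      have h2 : cumVal q E (n + 1) = cumVal q E n * q (n + 1) + (W (n + 1) - W n * q (n + 1)) := by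
        simp [cumVal, hE]
      rw [h2, ih]
      omega
  have hdig : ∀ n, 1 ≤ n → E n < q n := by
    intro n hn
    obtain ⟨m, rfl⟩ : ∃ m, n = m + 1 := ⟨n - 1, by omega⟩
    have h1 := hlt m
    have h2 := hle m
    simp only [hE, Nat.add_sub_cancel]
    have h3 : (W m + 1) * q (m+1) = W m * q (m+1) + q (m+1) := by ring
    omega
  have hprodT : Tendsto (fun n => (cumProd q n : ℝ)) atTop atTop := by
    have h2 : ∀ n, 2 ^ n ≤ cumProd q n := by
      intro n
      induction n with
      | zero => simp [cumProd_zero]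
      | succ n ih =>
        rw [cumProd_succ, pow_succ]
        exact Nat.mul_le_mul ih (hq (n+1) (by omega))
    refine tendsto_atTop_mono (fun n => ?_) (tendsto_pow_atTop_atTop_of_one_lt (r := (2:ℝ)) (by norm_num))
    exact_mod_cast h2 n
  have hS : cantorSum q E = y := by
    have hlim := (summable_term hq hdig).hasSum.tendsto_sum_nat
    refine tendsto_nhds_unique hlim ?_
    have hinv : Tendsto (fun n => ((cumProd q n : ℝ))⁻¹) atTop (𝓝 0) := tendsto_inv_atTop_zero.comp hprodT
    have hlow : Tendsto (fun n => y - ((cumProd q n : ℝ))⁻¹) atTop (𝓝 y) := by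
      simpa using tendsto_const_nhds.sub hinv
    refine tendsto_of_tendsto_of_tendsto_of_le_of_le hlow tendsto_const_nhds ?_ ?_
    · intro n
      have h1 : (0:ℝ) < cumProd q n := by exact_mod_cast cumProd_pos hq n
      show y - ((cumProd q n : ℝ))⁻¹ ≤ ∑ i ∈ range n, term q E i
      rw [sum_term hq, hcum, le_div_iff₀ h1, sub_mul, inv_mul_cancel₀ h1.ne']
      have : y * cumProd q n < (⌊y * cumProd q n⌋₊ : ℝ) + 1 := Nat.lt_floor_add_one _
      simp only [hW]
      linarith
    · intro n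
      have h1 : (0:ℝ) < cumProd q n := by exact_mod_cast cumProd_pos hq n
      show ∑ i ∈ range n, term q E i ≤ y
      rw [sum_term hq, hcum, div_le_iff₀ h1]
      exact Nat.floor_le (by positivity)
  have hfreq : ∃ᶠ n in atTop, E n ≠ q n - 1 := by
    intro hcon
    simp only [not_not] at hcon
    obtain ⟨N, hN⟩ := eventually_atTop.1 hcon
    -- from `N` on all digits are top digits, so `(V_n + 1) / Π_n` is constant
    have hconst : ∀ n, N ≤ n → ((cumVal q E n : ℝ) + 1) / (cumProd q n : ℝ) =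
        ((cumVal q E N : ℝ) + 1) / (cumProd q N : ℝ) := by
      intro n hn
      induction n, hn using Nat.le_induction with
      | base => rfl
      | succ n hn ih =>
        rw [← ih]
        have h1 : (0:ℝ) < cumProd q n := by exact_mod_cast cumProd_pos hq n
        have h4 := hq (n+1) (by omega)
        have h2 : (0:ℝ) < q (n + 1) := by exact_mod_cast (by omega : 0 < q (n+1))
        have h3 := hN (n+1) (by omega)
        have h5 : (E (n+1) : ℝ) = q (n+1) - 1 := by
          rw [h3, Nat.cast_sub (by omega)]; simp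
        rw [cumProd_succ]
        simp only [cumVal]
        push_cast
        rw [h5]
        field_simp
        ring
    have hlim := (summable_term hq hdig).hasSum.tendsto_sum_nat
    have hinv : Tendsto (fun n => ((cumProd q n : ℝ))⁻¹) atTop (𝓝 0) := tendsto_inv_atTop_zero.comp hprodT
    have hlim2 : Tendsto (fun n => ∑ i ∈ range n, term q E i) atTop
        (𝓝 (((cumVal q E N : ℝ) + 1) / (cumProd q N : ℝ) - 0)) := by
      refine Tendsto.congr' ?_ (tendsto_const_nhds.sub hinv)
      filter_upwards [eventually_ge_atTop N] with n hn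
      rw [sum_term hq, ← hconst n hn]
      have h1 : (0:ℝ) < cumProd q n := by exact_mod_cast cumProd_pos hq n
      field_simp
      ring
    have heq := tendsto_nhds_unique hlim hlim2
    have hyE : y = ((cumVal q E N : ℝ) + 1) / (cumProd q N : ℝ) := by
      rw [← hS]; simpa [cantorSum] using heq
    have h1 : (0:ℝ) < cumProd q N := by exact_mod_cast cumProd_pos hq N
    have h2 : y * cumProd q N < (W N : ℝ) + 1 := Nat.lt_floor_add_one _
    rw [hcum] at hyE
    rw [hyE] at h2
    rw [div_mul_cancel₀ _ h1.ne'] at h2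
    exact lt_irrefl _ h2
  refine ⟨E, hdig, hfreq, ?_⟩
  have := (summable_term hq hdig).hasSum
  have h3 : x - (⌊x⌋ : ℝ) = cantorSum q E := by rw [hS, hy]; rfl
  rw [h3]
  exact this

/-- The shift map in terms of the digits. -/
lemma shiftMap_eq {q E : ℕ → ℕ} {x : ℝ} (hq : IsBasic q) (h : IsExpansion q E x) (n : ℕ) :
    shiftMap q n x = cumProd q n * cantorSum q E - cumVal q E n := by
  unfold shiftMap
  rw [← cumProd_cast]
  have hx : x = ⌊x⌋ + cantorSum q E := by rw [h.cantorSum_eq]; ring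
  have h1 : (0:ℝ) < cumProd q n := by exact_mod_cast cumProd_pos hq n
  have e : (cumProd q n : ℝ) * x = (cumProd q n * cantorSum q E - cumVal q E n) +
      ((cumProd q n * ⌊x⌋ + cumVal q E n : ℤ) : ℝ) := by
    push_cast
    conv_lhs => rw [hx]
    ring
  rw [e, Int.fract_add_intCast]
  rw [Int.fract_eq_self]
  constructor
  · have := le_cantorSum hq h.digit_lt n
    rw [div_le_iff₀ h1] at this
    linarith
  · have := cantorSum_lt hq h.digit_lt h.frequently_ne n
    rw [lt_div_iff₀ h1] at this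
    linarith

lemma shiftMap_le {q E : ℕ → ℕ} {x : ℝ} (hq : IsBasic q) (h : IsExpansion q E x) (n : ℕ) :
    shiftMap q n x ≤ ((E (n + 1) : ℝ) + 1) / q (n + 1) := by
  rw [shiftMap_eq hq h]
  have h1 : (0:ℝ) < cumProd q n := by exact_mod_cast cumProd_pos hq n
  have h2 : (0:ℝ) < q (n + 1) := by
    have := hq (n+1) (by omega)
    exact_mod_cast (by omega : 0 < q (n+1))
  have h3 := cantorSum_le hq h.digit_lt (n + 1)
  simp only [cumProd_succ, cumVal] at h3
  push_cast at h3
  rw [le_div_iff₀ (by positivity)] at h3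
  rw [le_div_iff₀ h2]
  nlinarith

end Pool.Agent.Helper1.Cantor
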