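import Mathlib
import Pool.Agent.Helper1.CantorExpansion

set_option autoImplicit false
open Filter Topology Finset MeasureTheory
open scoped ENNReal NNReal

namespace Pool.Agent.Helper1.Cantor

lemma cumVal_inj {q E E' : ℕ → ℕ} (hE : ∀ n, 1 ≤ n → E n < q n) (hE' : ∀ n, 1 ≤ n → E' n < q n)
    (N : ℕ) (h : cumVal q E N = cumVal q E' N) : ∀ i ∈ Finset.Icc 1 N, E i = E' i := by
  induction N with
  | zero => intro i hi; simp at hi
  | succ N ih =>
    simp only [cumVal] at h
    have h1 := hE (N+1) (by omega)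
    have h2 := hE' (N+1) (by omega)
    have hq : 0 < q (N+1) := by omega
    have e1 : E (N+1) = E' (N+1) := by
      have := congrArg (· % q (N+1)) h
      simpa [Nat.add_mod, Nat.mul_mod_left, Nat.mod_eq_of_lt h1, Nat.mod_eq_of_lt h2] using this
    have e2 : cumVal q E N = cumVal q E' N := by
      rw [e1] at h
      exact Nat.eq_of_mul_eq_mul_right hq (by omega)
    intro i hi
    rw [Finset.mem_Icc] at hi
    rcases Nat.lt_or_ge i (N+1) with hlt | hge
    · exact ih e2 i (Finset.mem_Icc.2 ⟨hi.1, by omega⟩)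
    · have : i = N + 1 := by omega
      rw [this]; exact e1

lemma cumProd_mono {q : ℕ → ℕ} (hq : IsBasic q) : Monotone (cumProd q) := by
  apply monotone_nat_of_le_succ
  intro n
  rw [cumProd_succ]
  have := hq (n+1) (by omega)
  exact Nat.le_mul_of_pos_right _ (by omega)

lemma two_pow_le_cumProd {q : ℕ → ℕ} (hq : IsBasic q) (n : ℕ) : 2 ^ n ≤ cumProd q n := by
  induction n with
  | zero => simp [cumProd_zero]
  | succ n ih =>
    rw [cumProd_succ, pow_succ]
    exact Nat.mul_le_mul ih (hq (n+1) (by omega))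

lemma tendsto_cumProd {q : ℕ → ℕ} (hq : IsBasic q) :
    Tendsto (fun n => (cumProd q n : ℝ)) atTop atTop := by
  refine tendsto_atTop_mono (fun n => ?_)
    (tendsto_pow_atTop_atTop_of_one_lt (r := (2:ℝ)) (by norm_num))
  exact_mod_cast two_pow_le_cumProd hq n

lemma growth {q : ℕ → ℕ} (hq : IsBasic q) (hlim : InfiniteInLimit q) (C δ : ℝ) (hC : 0 < C)
    (hδ : 0 < δ) : ∃ n₀ : ℕ, ∀ n, n₀ ≤ n → 4 * C ^ (n + 1) ≤ (cumProd q n : ℝ) ^ δ := by
  set u : ℕ → ℝ := fun n => C ^ (n + 1) / (cumProd q n : ℝ) ^ δ with hu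
  have hpos : ∀ n, (0:ℝ) < cumProd q n := fun n => by exact_mod_cast cumProd_pos hq n
  have hupos : ∀ n, 0 < u n := fun n => by
    have := hpos n
    simp only [hu]; positivity
  have hratio : Tendsto (fun n => ‖u (n+1)‖ / ‖u n‖) atTop (𝓝 0) := by
    have h1 : Tendsto (fun n : ℕ => C / ((q (n+1) : ℝ)) ^ δ) atTop (𝓝 0) := by
      apply Tendsto.const_div_atTop
      exact (tendsto_rpow_atTop hδ).comp
        (tendsto_natCast_atTop_atTop.comp (hlim.comp (tendsto_add_atTop_nat 1)))
    refine h1.congr (fun n => ?_)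
    rw [Real.norm_of_nonneg (hupos _).le, Real.norm_of_nonneg (hupos _).le]
    have hq1 : (0:ℝ) < q (n+1) := by
      have := hq (n+1) (by omega)
      exact_mod_cast (by omega : 0 < q (n+1))
    simp only [hu]
    rw [cumProd_succ]
    push_cast
    rw [Real.mul_rpow (hpos n).le hq1.le]
    have h3 : 0 < (cumProd q n : ℝ) ^ δ := Real.rpow_pos_of_pos (hpos n) _
    have h4 : 0 < (q (n+1) : ℝ) ^ δ := Real.rpow_pos_of_pos hq1 _
    field_simp
    ring
  have hsum : Summable u :=
    summable_of_ratio_test_tendsto_lt_one (by norm_num) (Eventually.of_forall (fun n => (hupos n).ne')) hratio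
  have h0 := hsum.tendsto_atTop_zero
  obtain ⟨n₀, hn₀⟩ := eventually_atTop.1 (h0.eventually_le_const (show (0:ℝ) < 1/4 by norm_num))
  refine ⟨n₀, fun n hn => ?_⟩
  have h1 := hn₀ n hn
  have h3 : 0 < (cumProd q n : ℝ) ^ δ := Real.rpow_pos_of_pos (hpos n) _
  simp only [hu] at h1
  rw [div_le_iff₀ h3] at h1
  linarith

section
variable {Ω : Type*} [MeasurableSpace Ω] (P : Measure Ω) [IsProbabilityMeasure P]

lemma measurable_cantorSum {q : ℕ → ℕ} (hq : IsBasic q) (Y : Ω → ℕ → ℕ)
    (hYm : ∀ n, Measurable (fun ω => Y ω n)) (hY : ∀ ω n, 1 ≤ n → Y ω n < q n) :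
    Measurable (fun ω => cantorSum q (Y ω)) := by
  refine measurable_of_tendsto_metrizable (f := fun N ω => ∑ n ∈ range N, term q (Y ω) n) ?_ ?_
  · intro N
    refine Finset.measurable_sum _ (fun n _ => ?_)
    unfold term
    apply Measurable.div_const
    exact (measurable_of_countable (fun n : ℕ => (n : ℝ))).comp (hYm (n+1))
  · rw [tendsto_pi_nhds]
    intro ω
    exact (summable_term hq (hY ω)).hasSum.tendsto_sum_nat

lemma measurable_cumVal {q : ℕ → ℕ} (Y : Ω → ℕ → ℕ)
    (hYm : ∀ n, Measurable (fun ω => Y ω n)) (N : ℕ) :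
    Measurable (fun ω => cumVal q (Y ω) N) := by
  induction N with
  | zero => simp [cumVal]
  | succ N ih =>
    simp only [cumVal]
    exact (ih.mul_const _).add (hYm (N+1))

/-- Mass distribution bound. -/
lemma measure_ball_le {q : ℕ → ℕ} (hq : IsBasic q) (Y : Ω → ℕ → ℕ)
    (hY : ∀ ω n, 1 ≤ n → Y ω n < q n) (C : ℝ) (hC : 0 ≤ C)
    (hP : ∀ (N : ℕ) (d : ℕ → ℕ), P.real {ω | ∀ i ∈ Finset.Icc 1 N, Y ω i = d i}
      ≤ C ^ N / (cumProd q N : ℝ)) (x r : ℝ) (hr : 0 ≤ r) (N : ℕ) :
    P.real {ω | cantorSum q (Y ω) ∈ Set.Icc (x - r) (x + r)} ≤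
      (2 * r * cumProd q N + 2) * (C ^ N / (cumProd q N : ℝ)) := by
  have hpos : (0:ℝ) < cumProd q N := by exact_mod_cast cumProd_pos hq N
  set a : ℝ := (x - r) * cumProd q N - 1 with ha
  set b : ℝ := (x + r) * cumProd q N with hb
  have hv : ∀ v : ℕ, P.real {ω | cumVal q (Y ω) N = v} ≤ C ^ N / (cumProd q N : ℝ) := by
    intro v
    rcases Set.eq_empty_or_nonempty {ω | cumVal q (Y ω) N = v} with he | ⟨ω₀, hω₀⟩
    · rw [he]; simp; positivity
    · refine le_trans (measureReal_mono ?_) (hP N (Y ω₀))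
      intro ω hω
      simp only [Set.mem_ofPred_eq] at hω hω₀ ⊢
      exact cumVal_inj (hY ω) (hY ω₀) N (by rw [hω, hω₀])
  have hsub : {ω | cantorSum q (Y ω) ∈ Set.Icc (x - r) (x + r)} ⊆
      ⋃ v ∈ Finset.Icc ⌈a⌉₊ ⌊b⌋₊, {ω | cumVal q (Y ω) N = v} := by
    intro ω hω
    simp only [Set.mem_ofPred_eq, Set.mem_Icc] at hω
    simp only [Set.mem_iUnion, Set.mem_ofPred_eq, Finset.mem_Icc, exists_prop]
    refine ⟨cumVal q (Y ω) N, ⟨?_, ?_⟩, rfl⟩
    · rw [Nat.ceil_le]
      have h1 := cantorSum_le hq (hY ω) N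
      rw [le_div_iff₀ hpos] at h1
      have h2 : (x - r) * cumProd q N ≤ cantorSum q (Y ω) * cumProd q N := by
        have := hω.1
        gcongr
      simp only [ha]; linarith
    · apply Nat.le_floor
      have h1 := le_cantorSum hq (hY ω) N
      rw [div_le_iff₀ hpos] at h1
      have h2 : cantorSum q (Y ω) * cumProd q N ≤ (x + r) * cumProd q N := by
        have := hω.2
        gcongr
      simp only [hb]; linarith
  have hcard : ((Finset.Icc ⌈a⌉₊ ⌊b⌋₊).card : ℝ) ≤ 2 * r * cumProd q N + 2 := by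
    rw [Nat.card_Icc]
    rcases le_or_gt (⌊b⌋₊ + 1) ⌈a⌉₊ with h | h
    · rw [Nat.sub_eq_zero_of_le h]
      simp; positivity
    · rw [Nat.cast_sub h.le]
      push_cast
      have h1 : a ≤ (⌈a⌉₊ : ℝ) := Nat.le_ceil a
      rcases le_or_gt 0 b with hb0 | hb0
      · have h2 : (⌊b⌋₊ : ℝ) ≤ b := Nat.floor_le hb0
        have : b - a = 2 * r * cumProd q N + 1 := by simp only [ha, hb]; ring
        linarith
      · have h2 : ⌊b⌋₊ = 0 := Nat.floor_of_nonpos hb0.le
        rw [h2]
        have h3 : (0:ℝ) ≤ (⌈a⌉₊ : ℝ) := by positivity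
        have h4 : 0 ≤ 2 * r * cumProd q N := by positivity
        push_cast
        linarith
  calc P.real {ω | cantorSum q (Y ω) ∈ Set.Icc (x - r) (x + r)}
      ≤ P.real (⋃ v ∈ Finset.Icc ⌈a⌉₊ ⌊b⌋₊, {ω | cumVal q (Y ω) N = v}) :=
        measureReal_mono hsub (measure_ne_top _ _)
    _ ≤ ∑ v ∈ Finset.Icc ⌈a⌉₊ ⌊b⌋₊, P.real {ω | cumVal q (Y ω) N = v} :=
        measureReal_biUnion_finset_le _ _
    _ ≤ ∑ v ∈ Finset.Icc ⌈a⌉₊ ⌊b⌋₊, C ^ N / (cumProd q N : ℝ) :=
        Finset.sum_le_sum (fun v _ => hv v)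
    _ = ((Finset.Icc ⌈a⌉₊ ⌊b⌋₊).card : ℝ) * (C ^ N / (cumProd q N : ℝ)) := by
        rw [Finset.sum_const, nsmul_eq_mul]
    _ ≤ _ := by gcongr

/-- If almost every random Cantor series lies in `T`, and cylinders have mass at most
`C ^ N / (q_1 ⋯ q_N)`, then `T` has Hausdorff dimension `1`. -/
theorem dimH_eq_one_of_ae {q : ℕ → ℕ} (hq : IsBasic q) (hlim : InfiniteInLimit q) (Y : Ω → ℕ → ℕ)
    (hYm : ∀ n, Measurable (fun ω => Y ω n))
    (hY : ∀ ω n, 1 ≤ n → Y ω n < q n) (C : ℝ) (hC : 0 < C)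
    (hP : ∀ (N : ℕ) (d : ℕ → ℕ), P.real {ω | ∀ i ∈ Finset.Icc 1 N, Y ω i = d i}
      ≤ C ^ N / (cumProd q N : ℝ)) (T : Set ℝ) (hT : ∀ᵐ ω ∂P, cantorSum q (Y ω) ∈ T) :
    dimH T = 1 := by
  apply le_antisymm
  · calc dimH T ≤ dimH (Set.univ : Set ℝ) := dimH_mono (Set.subset_univ _)
      _ = 1 := Real.dimH_univ
  · -- lower bound
    have hFm := measurable_cantorSum hq Y hYm hY
    set F : Ω → ℝ := fun ω => cantorSum q (Y ω) with hF
    set μ : Measure ℝ := Measure.map F P with hμ
    have hpos : ∀ n, (0:ℝ) < cumProd q n := fun n => by exact_mod_cast cumProd_pos hq n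
    -- main estimate for each exponent `d ∈ (0,1)`
    have key : ∀ d : ℝ≥0, 0 < d → d < 1 → (d : ℝ≥0∞) ≤ dimH T := by
      intro d hd0 hd1
      have hd0' : (0:ℝ) < d := by exact_mod_cast hd0
      have hd1' : (d:ℝ) < 1 := by exact_mod_cast hd1
      obtain ⟨n₀, hn₀⟩ := growth hq hlim C (1 - d) hC (by linarith)
      have hsmall : ∀ (x r : ℝ), 0 < r → r < 1 / cumProd q n₀ →
          P.real {ω | F ω ∈ Set.Icc (x - r) (x + r)} ≤ r ^ (d:ℝ) := by
        intro x r hr hr1
        have hex : ∃ N : ℕ, 1 / r ≤ (cumProd q N : ℝ) :=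
          ((tendsto_cumProd hq).eventually_ge_atTop (1/r)).exists
        classical
        set N := Nat.find hex with hN
        have hNs : 1 / r ≤ (cumProd q N : ℝ) := Nat.find_spec hex
        have hNn : n₀ < N := by
          by_contra hcon
          push Not at hcon
          have h1 : (cumProd q N : ℝ) ≤ cumProd q n₀ := by exact_mod_cast cumProd_mono hq hcon
          have h2 : 1 / r ≤ (cumProd q n₀ : ℝ) := hNs.trans h1
          rw [div_le_iff₀ hr] at h2
          rw [lt_div_iff₀ (hpos n₀)] at hr1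
          nlinarith
        obtain ⟨m, hm⟩ : ∃ m, N = m + 1 := ⟨N - 1, by omega⟩
        have hmlt : (cumProd q m : ℝ) < 1 / r := by
          have := Nat.find_min hex (m := m) (by omega)
          push Not at this
          exact this
        have h1 := measure_ball_le P hq Y hY C hC.le hP x r hr.le N
        have h2 : 1 ≤ r * cumProd q N := by
          rw [div_le_iff₀ hr] at hNs; linarith
        have h3 : 4 * C ^ N ≤ (cumProd q m : ℝ) ^ (1 - (d:ℝ)) := by
          rw [hm]; exact hn₀ m (by omega)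
        have h4 : (cumProd q m : ℝ) ^ (1 - (d:ℝ)) ≤ (1 / r) ^ (1 - (d:ℝ)) :=
          Real.rpow_le_rpow (hpos m).le hmlt.le (by linarith)
        have h5 : r * (1 / r) ^ (1 - (d:ℝ)) = r ^ (d:ℝ) := by
          rw [Real.div_rpow zero_le_one hr.le, Real.one_rpow, Real.rpow_sub hr, Real.rpow_one]
          have : 0 < r ^ (d:ℝ) := Real.rpow_pos_of_pos hr _
          field_simp
        calc P.real {ω | F ω ∈ Set.Icc (x - r) (x + r)}
            ≤ (2 * r * cumProd q N + 2) * (C ^ N / (cumProd q N : ℝ)) := h1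
          _ ≤ (4 * (r * cumProd q N)) * (C ^ N / (cumProd q N : ℝ)) := by
              gcongr
              linarith
          _ = r * (4 * C ^ N) := by
              have := hpos N
              field_simp
          _ ≤ r * (1 / r) ^ (1 - (d:ℝ)) := by
              gcongr
              exact h3.trans h4
          _ = r ^ (d:ℝ) := h5
      have hle : μ ≤ μH[(d:ℝ)] := by
        apply Measure.le_hausdorffMeasure (d:ℝ) μ (ENNReal.ofReal (1 / (2 * cumProd q n₀)))
        · rw [ENNReal.ofReal_pos]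
          have := hpos n₀
          positivity
        · intro U hU
          rcases Set.eq_empty_or_nonempty U with he | ⟨x, hx⟩
          · rw [he]; simp
          · have hfin : Metric.ediam U ≠ ⊤ := ne_top_of_le_ne_top ENNReal.ofReal_ne_top hU
            set r : ℝ := (Metric.ediam U).toReal with hr
            have hr0 : 0 ≤ r := ENNReal.toReal_nonneg
            have hrU : Metric.ediam U = ENNReal.ofReal r := (ENNReal.ofReal_toReal hfin).symm
            have hr1 : r < 1 / cumProd q n₀ := by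
              have h1 : r ≤ 1 / (2 * cumProd q n₀) := by
                rw [hr]
                have := ENNReal.toReal_mono ENNReal.ofReal_ne_top hU
                rwa [ENNReal.toReal_ofReal (by have := hpos n₀; positivity)] at this
              refine lt_of_le_of_lt h1 ?_
              have := hpos n₀
              apply one_div_lt_one_div_of_lt this
              linarith
            have hUsub : ∀ r', r ≤ r' → U ⊆ Set.Icc (x - r') (x + r') := by
              intro r' hr' y hy
              have h1 : edist x y ≤ ENNReal.ofReal r := by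
                rw [← hrU]; exact Metric.edist_le_ediam_of_mem hx hy
              rw [edist_dist, ENNReal.ofReal_le_ofReal_iff hr0, Real.dist_eq] at h1
              rw [abs_le] at h1
              constructor <;> linarith [h1.1, h1.2]
            have hb : ∀ r', r < r' → r' < 1 / cumProd q n₀ → μ U ≤ ENNReal.ofReal (r' ^ (d:ℝ)) := by
              intro r' h1 h2
              calc μ U ≤ μ (Set.Icc (x - r') (x + r')) := measure_mono (hUsub r' h1.le)
                _ = P {ω | F ω ∈ Set.Icc (x - r') (x + r')} := by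
                    rw [hμ, Measure.map_apply hFm measurableSet_Icc]; rfl
                _ = ENNReal.ofReal (P.real {ω | F ω ∈ Set.Icc (x - r') (x + r')}) := by
                    rw [ofReal_measureReal (by finiteness)]
                _ ≤ ENNReal.ofReal (r' ^ (d:ℝ)) :=
                    ENNReal.ofReal_le_ofReal (hsmall x r' (lt_of_le_of_lt hr0 h1) h2)
            rw [hrU, ENNReal.ofReal_rpow_of_nonneg hr0 hd0'.le]
            have hcont : Tendsto (fun r' : ℝ => ENNReal.ofReal (r' ^ (d:ℝ))) (𝓝[>] r)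
                (𝓝 (ENNReal.ofReal (r ^ (d:ℝ)))) := by
              apply ENNReal.tendsto_ofReal
              exact ((Real.continuousAt_rpow_const r (d:ℝ) (Or.inr hd0'.le)).tendsto).mono_left
                nhdsWithin_le_nhds
            refine ge_of_tendsto hcont ?_
            filter_upwards [Ioo_mem_nhdsGT hr1] with r' hr'
            exact hb r' hr'.1 hr'.2
      apply le_dimH_of_hausdorffMeasure_ne_zero
      have h1 : 1 ≤ μ T := by
        calc (1 : ℝ≥0∞) = P (F ⁻¹' T) := by
              have : (F ⁻¹' T) =ᵐ[P] Set.univ := Filter.eventuallyEq_univ.2 hT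
              rw [measure_congr this, measure_univ]
          _ ≤ μ T := Measure.le_map_apply hFm.aemeasurable T
      have h2 : μ T ≤ μH[(d:ℝ)] T := hle T
      intro h0
      rw [h0] at h2
      exact absurd (h1.trans h2) (by norm_num)
    refine le_of_forall_lt (fun c hc => ?_)
    obtain ⟨d, hd1, hd2⟩ := ENNReal.lt_iff_exists_nnreal_btwn.1 hc
    have hd2' : d < 1 := by exact_mod_cast hd2
    have hd0 : 0 < d := by
      have : (0 : ℝ≥0∞) < d := lt_of_le_of_lt (zero_le) hd1
      exact_mod_cast this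
    exact lt_of_lt_of_le hd1 (key d hd0 hd2')

end

end Pool.Agent.Helper1.Cantor
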