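import Mathlib

set_option autoImplicit false
open Filter Topology Finset MeasureTheory ProbabilityTheory

namespace Pool.Agent.Helper1

/-- Deterministic interpolation lemma. -/
lemma ratio_tendsto_of_subseq (N M : ℕ → ℝ) (hN : Monotone N) (hN0 : ∀ n, 0 ≤ N n)
    (hM : Monotone M) (hdiv : Tendsto M atTop atTop)
    (n : ℕ → ℕ) (hn_le : ∀ j : ℕ, 1 ≤ j → (j : ℝ) ^ 2 ≤ M (n j))
    (hn_ge : ∀ j : ℕ, 1 ≤ j → M (n j) ≤ (j : ℝ) ^ 2 + 1)
    (hn_first : ∀ j k : ℕ, 1 ≤ j → (j : ℝ) ^ 2 ≤ M k → n j ≤ k)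
    (hlim : Tendsto (fun j => N (n j) / M (n j)) atTop (𝓝 1)) :
    Tendsto (fun k => N k / M k) atTop (𝓝 1) := by
  set s : ℕ → ℕ := fun k => ⌊Real.sqrt (M k)⌋₊ with hs
  have hsT : Tendsto s atTop atTop :=
    tendsto_nat_floor_atTop.comp (Real.tendsto_sqrt_atTop.comp hdiv)
  have hR1 : Tendsto (fun k => N (n (s k)) / M (n (s k))) atTop (𝓝 1) := hlim.comp hsT
  have hR2 : Tendsto (fun k => N (n (s k + 1)) / M (n (s k + 1))) atTop (𝓝 1) :=
    hlim.comp ((tendsto_add_atTop_nat 1).comp hsT)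
  have hsR : Tendsto (fun k => ((s k : ℕ) : ℝ)) atTop atTop :=
    tendsto_natCast_atTop_atTop.comp hsT
  have hinv : Tendsto (fun k => ((s k : ℕ) : ℝ)⁻¹) atTop (𝓝 0) :=
    tendsto_inv_atTop_zero.comp hsR
  have hlow : Tendsto (fun k => ((s k : ℝ)) ^ 2 / ((s k : ℝ) + 1) ^ 2) atTop (𝓝 1) := by
    have h1 : Tendsto (fun k => (1 / (1 + ((s k : ℝ))⁻¹)) ^ 2) atTop (𝓝 ((1 / (1 + 0)) ^ 2)) := by
      apply Tendsto.pow
      apply Tendsto.div tendsto_const_nhds (tendsto_const_nhds.add hinv)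
      norm_num
    have h2 : ((1 : ℝ) / (1 + 0)) ^ 2 = 1 := by norm_num
    rw [h2] at h1
    refine h1.congr' ?_
    filter_upwards [hsR.eventually_gt_atTop 0] with k hk
    field_simp
  have hup : Tendsto (fun k => (((s k : ℝ) + 1) ^ 2 + 1) / ((s k : ℝ)) ^ 2) atTop (𝓝 1) := by
    have h1 : Tendsto (fun k => (1 + ((s k : ℝ))⁻¹) ^ 2 + (((s k : ℝ))⁻¹) ^ 2) atTop
        (𝓝 ((1 + 0) ^ 2 + 0 ^ 2)) := by
      apply Tendsto.add
      · exact (tendsto_const_nhds.add hinv).pow 2
      · exact hinv.pow 2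
    have h2 : ((1 : ℝ) + 0) ^ 2 + 0 ^ 2 = 1 := by norm_num
    rw [h2] at h1
    refine h1.congr' ?_
    filter_upwards [hsR.eventually_gt_atTop 0] with k hk
    field_simp
  have hL : Tendsto (fun k => N (n (s k)) / M (n (s k)) * (((s k : ℝ)) ^ 2 / ((s k : ℝ) + 1) ^ 2))
      atTop (𝓝 1) := by simpa using hR1.mul hlow
  have hU : Tendsto (fun k => N (n (s k + 1)) / M (n (s k + 1)) *
      ((((s k : ℝ) + 1) ^ 2 + 1) / ((s k : ℝ)) ^ 2)) atTop (𝓝 1) := by simpa using hR2.mul hup
  refine tendsto_of_tendsto_of_tendsto_of_le_of_le' hL hU ?_ ?_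
  · filter_upwards [hsT.eventually_ge_atTop 1, hdiv.eventually_gt_atTop 0] with k hk hMk
    have hk1 : (1:ℝ) ≤ s k := by exact_mod_cast hk
    have hlt : Real.sqrt (M k) < (s k : ℝ) + 1 := Nat.lt_floor_add_one _
    have hle : (s k : ℝ) ≤ Real.sqrt (M k) := Nat.floor_le (Real.sqrt_nonneg _)
    have hsq : Real.sqrt (M k) ^ 2 = M k := Real.sq_sqrt hMk.le
    have h1 : (s k : ℝ) ^ 2 ≤ M k := by rw [← hsq]; gcongr
    have h2 : M k < ((s k : ℝ) + 1) ^ 2 := by
      rw [← hsq]; exact pow_lt_pow_left₀ hlt (Real.sqrt_nonneg _) (by norm_num)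
    have h3 : n (s k) ≤ k := hn_first _ _ hk h1
    have h4 : N (n (s k)) ≤ N k := hN h3
    have h5 : (s k : ℝ) ^ 2 ≤ M (n (s k)) := hn_le _ hk
    have hpos : 0 < M (n (s k)) := lt_of_lt_of_le (by positivity) h5
    calc N (n (s k)) / M (n (s k)) * ((s k : ℝ) ^ 2 / ((s k : ℝ) + 1) ^ 2)
        = N (n (s k)) * ((s k : ℝ) ^ 2 / M (n (s k))) / ((s k : ℝ) + 1) ^ 2 := by
          field_simp
      _ ≤ N (n (s k)) * 1 / ((s k : ℝ) + 1) ^ 2 := by
          have : (s k : ℝ) ^ 2 / M (n (s k)) ≤ 1 := (div_le_one hpos).2 h5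
          have h0 := hN0 (n (s k))
          gcongr
      _ = N (n (s k)) / ((s k : ℝ) + 1) ^ 2 := by rw [mul_one]
      _ ≤ N k / M k := by
          apply div_le_div₀ (hN0 k) h4 hMk h2.le
  · filter_upwards [hsT.eventually_ge_atTop 1, hdiv.eventually_gt_atTop 0] with k hk hMk
    have hk1 : (1:ℝ) ≤ s k := by exact_mod_cast hk
    have hlt : Real.sqrt (M k) < (s k : ℝ) + 1 := Nat.lt_floor_add_one _
    have hle : (s k : ℝ) ≤ Real.sqrt (M k) := Nat.floor_le (Real.sqrt_nonneg _)
    have hsq : Real.sqrt (M k) ^ 2 = M k := Real.sq_sqrt hMk.le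
    have h1 : (s k : ℝ) ^ 2 ≤ M k := by rw [← hsq]; gcongr
    have h2 : M k < ((s k : ℝ) + 1) ^ 2 := by
      rw [← hsq]; exact pow_lt_pow_left₀ hlt (Real.sqrt_nonneg _) (by norm_num)
    have hk2 : 1 ≤ s k + 1 := by omega
    have h5 : ((s k + 1 : ℕ) : ℝ) ^ 2 ≤ M (n (s k + 1)) := hn_le _ hk2
    have h6 : M (n (s k + 1)) ≤ ((s k + 1 : ℕ) : ℝ) ^ 2 + 1 := hn_ge _ hk2
    push_cast at h5 h6
    have h3 : k ≤ n (s k + 1) := by
      by_contra hcon
      push Not at hcon
      have := hM hcon.le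
      linarith
    have h4 : N k ≤ N (n (s k + 1)) := hN h3
    have hpos : 0 < M (n (s k + 1)) := lt_of_lt_of_le (by positivity) h5
    have h0 := hN0 (n (s k + 1))
    calc N k / M k ≤ N (n (s k + 1)) / (s k : ℝ) ^ 2 := by
          apply div_le_div₀ h0 h4 (by positivity) h1
      _ = N (n (s k + 1)) * 1 / (s k : ℝ) ^ 2 := by rw [mul_one]
      _ ≤ N (n (s k + 1)) * ((((s k : ℝ) + 1) ^ 2 + 1) / M (n (s k + 1))) / (s k : ℝ) ^ 2 := by
          have : 1 ≤ (((s k : ℝ) + 1) ^ 2 + 1) / M (n (s k + 1)) := (one_le_div hpos).2 h6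
          gcongr
      _ = N (n (s k + 1)) / M (n (s k + 1)) * ((((s k : ℝ) + 1) ^ 2 + 1) / ((s k : ℝ)) ^ 2) := by
          field_simp

section
variable {Ω : Type*} [MeasurableSpace Ω] (P : Measure Ω) [IsProbabilityMeasure P]

lemma second_moment (A : ℕ → Set Ω) (hA : ∀ n, MeasurableSet (A n)) (K : ℕ)
    (hind : ∀ i j, i + K ≤ j → P (A i ∩ A j) = P (A i) * P (A j)) (n : ℕ) :
    ∫ ω, (∑ i ∈ Icc 1 n, ((A i).indicator (fun _ => (1:ℝ)) ω - P.real (A i))) ^ 2 ∂P
      ≤ 2 * K * ∑ i ∈ Icc 1 n, P.real (A i) := by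
  set f : ℕ → Ω → ℝ := fun i ω => (A i).indicator (fun _ => (1:ℝ)) ω - P.real (A i) with hf
  have hfm : ∀ i, Measurable (f i) := fun i =>
    (measurable_const.indicator (hA i)).sub measurable_const
  have hfb : ∀ i ω, |f i ω| ≤ 1 := by
    intro i ω
    have h1 : P.real (A i) ≤ 1 := measureReal_le_one
    have h0 : 0 ≤ P.real (A i) := measureReal_nonneg
    simp only [hf, Set.indicator]
    split_ifs <;> rw [abs_le] <;> constructor <;> linarith
  have hint : ∀ i j, Integrable (fun ω => f i ω * f j ω) P := by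
    intro i j
    refine Integrable.of_bound ((hfm i).mul (hfm j)).aestronglyMeasurable 1 ?_
    filter_upwards with ω
    rw [Real.norm_eq_abs, abs_mul]
    exact mul_le_one₀ (hfb i ω) (abs_nonneg _) (hfb j ω)
  have hexp : ∀ ω, (∑ i ∈ Icc 1 n, f i ω) ^ 2 = ∑ i ∈ Icc 1 n, ∑ j ∈ Icc 1 n, f i ω * f j ω := by
    intro ω
    rw [sq, Finset.sum_mul_sum]
  have hcov : ∀ i j, ∫ ω, f i ω * f j ω ∂P = P.real (A i ∩ A j) - P.real (A i) * P.real (A j) := by
    intro i j
    have hi : Integrable ((A i).indicator (fun _ => (1:ℝ))) P :=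
      (integrable_const (1:ℝ)).indicator (hA i)
    have hj : Integrable ((A j).indicator (fun _ => (1:ℝ))) P :=
      (integrable_const (1:ℝ)).indicator (hA j)
    have hij : Integrable ((A i ∩ A j).indicator (fun _ => (1:ℝ))) P :=
      (integrable_const (1:ℝ)).indicator ((hA i).inter (hA j))
    have e : ∀ ω, f i ω * f j ω = (A i ∩ A j).indicator (fun _ => (1:ℝ)) ω
        - (P.real (A j) * (A i).indicator (fun _ => (1:ℝ)) ω
        + P.real (A i) * (A j).indicator (fun _ => (1:ℝ)) ω) + P.real (A i) * P.real (A j) := by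
      intro ω
      simp only [hf, Set.indicator, Set.mem_inter_iff]
      by_cases h1 : ω ∈ A i <;> by_cases h2 : ω ∈ A j <;> simp [h1, h2] <;> ring
    rw [integral_congr_ae (Eventually.of_forall e)]
    rw [integral_add, integral_sub, integral_add, integral_const_mul, integral_const_mul,
      integral_indicator_const _ (hA i), integral_indicator_const _ (hA j),
      integral_indicator_const _ ((hA i).inter (hA j)), integral_const]
    · simp; ring
    · exact hi.const_mul _
    · exact hj.const_mul _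
    · exact hij
    · exact (hi.const_mul _).add (hj.const_mul _)
    · exact hij.sub ((hi.const_mul _).add (hj.const_mul _))
    · exact integrable_const _
  calc ∫ ω, (∑ i ∈ Icc 1 n, f i ω) ^ 2 ∂P
      = ∫ ω, ∑ i ∈ Icc 1 n, ∑ j ∈ Icc 1 n, f i ω * f j ω ∂P := by
        exact integral_congr_ae (Eventually.of_forall hexp)
    _ = ∑ i ∈ Icc 1 n, ∑ j ∈ Icc 1 n, ∫ ω, f i ω * f j ω ∂P := by
        rw [integral_finsetSum _ (fun i _ => integrable_finsetSum _ (fun j _ => hint i j))]
        refine Finset.sum_congr rfl (fun i _ => ?_)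
        rw [integral_finsetSum _ (fun j _ => hint i j)]
    _ ≤ ∑ i ∈ Icc 1 n, ∑ j ∈ Icc 1 n, (if j < i + K ∧ i < j + K then P.real (A i) else 0) := by
        refine Finset.sum_le_sum (fun i _ => Finset.sum_le_sum (fun j _ => ?_))
        rw [hcov]
        split_ifs with h
        · have h1 : P.real (A i ∩ A j) ≤ P.real (A i) := measureReal_mono Set.inter_subset_left
          have h2 : 0 ≤ P.real (A i) * P.real (A j) := by positivity
          linarith
        · rw [not_and_or] at h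
          have : P (A i ∩ A j) = P (A i) * P (A j) := by
            rcases h with h | h
            · exact hind i j (by omega)
            · rw [Set.inter_comm, hind j i (by omega), mul_comm]
          simp [measureReal_def, this]
    _ ≤ ∑ i ∈ Icc 1 n, 2 * K * P.real (A i) := by
        refine Finset.sum_le_sum (fun i _ => ?_)
        rw [← Finset.sum_filter, Finset.sum_const, nsmul_eq_mul]
        have hcard : #{j ∈ Icc 1 n | j < i + K ∧ i < j + K} ≤ 2 * K := by
          calc #{j ∈ Icc 1 n | j < i + K ∧ i < j + K} ≤ #(Finset.Ico (i - K) (i + K)) := by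
                apply Finset.card_le_card
                intro j hj
                simp only [mem_filter, mem_Icc, mem_Ico] at hj ⊢
                omega
            _ ≤ 2 * K := by rw [Nat.card_Ico]; omega
        have : (#{j ∈ Icc 1 n | j < i + K ∧ i < j + K} : ℝ) ≤ 2 * K := by exact_mod_cast hcard
        exact mul_le_mul_of_nonneg_right this measureReal_nonneg
    _ = 2 * K * ∑ i ∈ Icc 1 n, P.real (A i) := by rw [Finset.mul_sum]

/-- Strong law for events that are `K`-dependent (pairwise). -/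
theorem strong_law_events (A : ℕ → Set Ω) (hA : ∀ n, MeasurableSet (A n)) (K : ℕ)
    (hind : ∀ i j, i + K ≤ j → P (A i ∩ A j) = P (A i) * P (A j))
    (hdiv : Tendsto (fun n => ∑ i ∈ Icc 1 n, P.real (A i)) atTop atTop) :
    ∀ᵐ ω ∂P, Tendsto (fun n => (∑ i ∈ Icc 1 n, (A i).indicator (fun _ => (1:ℝ)) ω) /
      ∑ i ∈ Icc 1 n, P.real (A i)) atTop (𝓝 1) := by
  classical
  set M : ℕ → ℝ := fun n => ∑ i ∈ Icc 1 n, P.real (A i) with hMdef
  have hMmono : Monotone M := by
    intro a b hab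
    apply Finset.sum_le_sum_of_subset_of_nonneg
    · exact Finset.Icc_subset_Icc_right hab
    · intros; exact measureReal_nonneg
  have hex : ∀ j : ℕ, ∃ n, (j : ℝ) ^ 2 ≤ M n := fun j => (hdiv.eventually_ge_atTop _).exists
  set n : ℕ → ℕ := fun j => Nat.find (hex j) with hn
  have hn_le : ∀ j : ℕ, (j : ℝ) ^ 2 ≤ M (n j) := fun j => Nat.find_spec (hex j)
  have hn_first : ∀ j k : ℕ, (j : ℝ) ^ 2 ≤ M k → n j ≤ k := fun j k h => Nat.find_min' (hex j) h
  have hn_ge : ∀ j : ℕ, 1 ≤ j → M (n j) ≤ (j : ℝ) ^ 2 + 1 := by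
    intro j hj
    rcases Nat.eq_zero_or_pos (n j) with h0 | hpos
    · rw [h0]
      simp only [hMdef]
      simp
      positivity
    · obtain ⟨m, hm⟩ : ∃ m, n j = m + 1 := ⟨n j - 1, by omega⟩
      have hlt : ¬ ((j : ℝ) ^ 2 ≤ M m) := fun h => by
        have := hn_first j m h
        omega
      rw [hm]
      have : M (m + 1) = M m + P.real (A (m + 1)) := by
        simp only [hMdef]
        rw [Finset.sum_Icc_succ_top (by omega)]
      rw [this]
      have h1 : P.real (A (m + 1)) ≤ 1 := measureReal_le_one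
      push Not at hlt
      linarith
  have hkey : ∀ m : ℕ, ∀ᵐ ω ∂P, ∀ᶠ j : ℕ in atTop,
      |(∑ i ∈ Icc 1 (n (j+1)), (A i).indicator (fun _ => (1:ℝ)) ω) - M (n (j+1))| <
        (1 / ((m:ℝ) + 1)) * M (n (j+1)) := by
    intro m
    set ε : ℝ := 1 / ((m:ℝ) + 1) with hε
    have hεpos : 0 < ε := by positivity
    set B : ℕ → Set Ω := fun j => {ω | ε * M (n (j+1)) ≤
      |(∑ i ∈ Icc 1 (n (j+1)), (A i).indicator (fun _ => (1:ℝ)) ω) - M (n (j+1))|} with hB
    have hbound : ∀ j : ℕ, P (B j) ≤ ENNReal.ofReal ((2 * K / ε ^ 2) * (1 / ((j:ℝ) + 1) ^ 2)) := by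
      intro j
      have hMpos : 0 < M (n (j+1)) := by
        have := hn_le (j+1)
        push_cast at this
        exact lt_of_lt_of_le (by positivity) this
      have h2 := second_moment P A hA K hind (n (j+1))
      set g : Ω → ℝ := fun ω => (∑ i ∈ Icc 1 (n (j+1)),
        ((A i).indicator (fun _ => (1:ℝ)) ω - P.real (A i))) ^ 2 with hg
      have hgm : Measurable g := by
        apply Measurable.pow_const
        exact Finset.measurable_sum _ (fun i _ =>
          (measurable_const.indicator (hA i)).sub measurable_const)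
      have hgint : Integrable g P := by
        refine Integrable.of_bound hgm.aestronglyMeasurable ((n (j+1) : ℝ) ^ 2) ?_
        filter_upwards with ω
        rw [Real.norm_eq_abs, abs_of_nonneg (by positivity)]
        simp only [hg]
        rw [← sq_abs]
        have : |∑ i ∈ Icc 1 (n (j+1)), ((A i).indicator (fun _ => (1:ℝ)) ω - P.real (A i))|
            ≤ (n (j+1) : ℝ) := by
          calc _ ≤ ∑ i ∈ Icc 1 (n (j+1)), |(A i).indicator (fun _ => (1:ℝ)) ω - P.real (A i)| :=
                Finset.abs_sum_le_sum_abs _ _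
            _ ≤ ∑ i ∈ Icc 1 (n (j+1)), (1:ℝ) := by
                refine Finset.sum_le_sum (fun i _ => ?_)
                have h1 : P.real (A i) ≤ 1 := measureReal_le_one
                have h0 : 0 ≤ P.real (A i) := measureReal_nonneg
                simp only [Set.indicator]
                split_ifs <;> rw [abs_le] <;> constructor <;> linarith
            _ = (n (j+1) : ℝ) := by simp
        gcongr
      have hsub : B j ⊆ {ω | (ε * M (n (j+1))) ^ 2 ≤ g ω} := by
        intro ω hω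
        simp only [hB, Set.mem_ofPred_eq] at hω ⊢
        simp only [hg]
        rw [Finset.sum_sub_distrib, ← sq_abs (_ - _)]
        gcongr
      have hmarkov := mul_meas_ge_le_integral_of_nonneg (μ := P) (f := g)
        (Eventually.of_forall (fun ω => by positivity)) hgint ((ε * M (n (j+1))) ^ 2)
      have hPB : P.real (B j) ≤ P.real {ω | (ε * M (n (j+1))) ^ 2 ≤ g ω} :=
        measureReal_mono hsub
      have h3 : (ε * M (n (j+1))) ^ 2 * P.real (B j) ≤ 2 * K * M (n (j+1)) := by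
        calc (ε * M (n (j+1))) ^ 2 * P.real (B j)
            ≤ (ε * M (n (j+1))) ^ 2 * P.real {ω | (ε * M (n (j+1))) ^ 2 ≤ g ω} := by gcongr
          _ ≤ ∫ ω, g ω ∂P := hmarkov
          _ ≤ 2 * K * M (n (j+1)) := h2
      have h4 : P.real (B j) ≤ (2 * K / ε ^ 2) * (1 / ((j:ℝ) + 1) ^ 2) := by
        have h5 : ((j:ℝ) + 1) ^ 2 ≤ M (n (j+1)) := by
          have := hn_le (j+1); push_cast at this; exact this
        have h6 : P.real (B j) ≤ 2 * K / (ε ^ 2 * M (n (j+1))) := by
          rw [le_div_iff₀ (by positivity)]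
          have h7 : (P.real (B j) * (ε ^ 2 * M (n (j+1)))) * M (n (j+1)) ≤
              (2 * K) * M (n (j+1)) := by nlinarith [h3]
          exact le_of_mul_le_mul_right h7 hMpos
        calc P.real (B j) ≤ 2 * K / (ε ^ 2 * M (n (j+1))) := h6
          _ ≤ 2 * K / (ε ^ 2 * ((j:ℝ) + 1) ^ 2) := by gcongr
          _ = (2 * K / ε ^ 2) * (1 / ((j:ℝ) + 1) ^ 2) := by field_simp
      rw [← ofReal_measureReal (by finiteness)]
      exact ENNReal.ofReal_le_ofReal h4
    have hsum : (∑' j, P (B j)) ≠ ⊤ := by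
      have hs : Summable (fun j : ℕ => (2 * K / ε ^ 2) * (1 / ((j:ℝ) + 1) ^ 2)) := by
        apply Summable.mul_left
        have := (summable_nat_add_iff (f := fun j : ℕ => 1 / (j:ℝ) ^ 2) 1).2
          (Real.summable_one_div_nat_pow.2 (by norm_num))
        simpa using this
      refine ne_top_of_le_ne_top ?_ (ENNReal.tsum_le_tsum hbound)
      rw [← ENNReal.ofReal_tsum_of_nonneg (fun j => by positivity) hs]
      exact ENNReal.ofReal_ne_top
    filter_upwards [ae_eventually_notMem hsum] with ω hω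
    filter_upwards [hω] with j hj
    simp only [hB, Set.mem_ofPred_eq, not_le] at hj
    exact hj
  filter_upwards [ae_all_iff.2 hkey] with ω hω
  refine ratio_tendsto_of_subseq (fun k => ∑ i ∈ Icc 1 k, (A i).indicator (fun _ => (1:ℝ)) ω) M
    ?_ ?_ hMmono hdiv n (fun j _ => hn_le j) hn_ge (fun j k _ h => hn_first j k h) ?_
  · intro a b hab
    apply Finset.sum_le_sum_of_subset_of_nonneg
    · exact Finset.Icc_subset_Icc_right hab
    · intros; exact Set.indicator_nonneg (fun _ _ => zero_le_one) _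
  · intro k; exact Finset.sum_nonneg (fun i _ => Set.indicator_nonneg (fun _ _ => zero_le_one) _)
  · rw [← tendsto_add_atTop_iff_nat 1, Metric.tendsto_atTop']
    intro δ hδ
    obtain ⟨m, hm⟩ := exists_nat_one_div_lt hδ
    have := hω m
    rw [eventually_atTop] at this
    obtain ⟨j0, hj0⟩ := this
    refine ⟨j0, fun j hj => ?_⟩
    have hMpos : 0 < M (n (j+1)) := by
      have := hn_le (j+1)
      push_cast at this
      exact lt_of_lt_of_le (by positivity) this
    rw [Real.dist_eq]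
    have h1 := hj0 j hj.le
    have h2 : (∑ i ∈ Icc 1 (n (j+1)), (A i).indicator (fun _ => (1:ℝ)) ω) / M (n (j+1)) - 1 =
      ((∑ i ∈ Icc 1 (n (j+1)), (A i).indicator (fun _ => (1:ℝ)) ω) - M (n (j+1))) / M (n (j+1)) := by
      field_simp
    rw [h2, abs_div, abs_of_pos hMpos, div_lt_iff₀ hMpos]
    calc _ < _ := h1
      _ ≤ δ * M (n (j+1)) := by gcongr

end

end Pool.Agent.Helper1
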