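import Mathlib
import Pool.Agent.Helper1.StrongLaw
import Pool.Agent.Helper1.CantorDim

set_option autoImplicit false
open Filter Topology Finset MeasureTheory
open scoped ENNReal NNReal

namespace Pool.Agent.Helper1.Cantor

lemma range_max_nonempty (m : ℕ) : (Finset.range (max m 1)).Nonempty := by
  rw [Finset.nonempty_range_iff]
  have := le_max_right m 1
  omega

/-- Uniform probability on `{0, …, m - 1}` (on `{0}` if `m = 0`). -/
noncomputable def unif (m : ℕ) : Measure ℕ :=
  (PMF.uniformOfFinset (Finset.range (max m 1)) (range_max_nonempty m)).toMeasure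

instance (m : ℕ) : IsProbabilityMeasure (unif m) := by
  unfold unif; infer_instance

lemma unif_real (m : ℕ) (hm : 1 ≤ m) (S : Finset ℕ) :
    (unif m).real (S : Set ℕ) ≤ (S.card : ℝ) / m := by
  classical
  have h : unif m (S : Set ℕ) = ((((Finset.range (max m 1)).filter (· ∈ (S : Set ℕ))).card : ℝ≥0∞)) /
      ((Finset.range (max m 1)).card : ℝ≥0∞) := by
    unfold unif
    rw [PMF.toMeasure_uniformOfFinset_apply _ _ (MeasurableSet.of_discrete)]
    congr!
  rw [measureReal_def, h, ENNReal.toReal_div]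
  simp only [ENNReal.toReal_natCast, Finset.card_range]
  rw [max_eq_left hm]
  gcongr
  intro x hx
  simp only [Finset.mem_filter] at hx
  exact hx.2

lemma unif_real_eq (m : ℕ) (hm : 1 ≤ m) (S : Finset ℕ) (hS : ∀ s ∈ S, s < m) :
    (unif m).real (S : Set ℕ) = (S.card : ℝ) / m := by
  classical
  have h : unif m (S : Set ℕ) = ((((Finset.range (max m 1)).filter (· ∈ (S : Set ℕ))).card : ℝ≥0∞)) /
      ((Finset.range (max m 1)).card : ℝ≥0∞) := by
    unfold unif
    rw [PMF.toMeasure_uniformOfFinset_apply _ _ (MeasurableSet.of_discrete)]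
    congr!
  rw [measureReal_def, h, ENNReal.toReal_div]
  simp only [ENNReal.toReal_natCast, Finset.card_range]
  rw [max_eq_left hm]
  congr 2
  congr 1
  ext x
  simp only [Finset.mem_filter, Finset.mem_coe, Finset.mem_range]
  constructor
  · exact fun h => h.2
  · exact fun h => ⟨hS x h, h⟩

lemma unif_singleton (m d : ℕ) (hd : d < m) : (unif m).real {d} = 1 / m := by
  have := unif_real_eq m (by omega) {d} (by simpa using hd)
  simpa using this

lemma unif_Iio (m : ℕ) (hm : 1 ≤ m) : unif m (Set.Iio m) = 1 := by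
  have h1 := unif_real_eq m hm (Finset.range m) (fun s hs => Finset.mem_range.1 hs)
  have h2 : ((Finset.range m : Finset ℕ) : Set ℕ) = Set.Iio m := by ext; simp
  rw [h2, Finset.card_range] at h1
  have hm' : (m:ℝ) ≠ 0 := by positivity
  rw [div_self hm'] at h1
  rw [← ofReal_measureReal (by finiteness), h1]
  simp

/-- The product probability on digit sequences. -/
noncomputable def prodP (q : ℕ → ℕ) : Measure (ℕ → ℕ) := Measure.infinitePi (fun i => unif (q i))

instance (q : ℕ → ℕ) : IsProbabilityMeasure (prodP q) := by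
  unfold prodP; infer_instance

/-- Event that the digits `n, …, n+K-1` lie in prescribed sets. -/
def patt (K : ℕ) (a : ℕ → ℕ → Set ℕ) (n : ℕ) : Set (ℕ → ℕ) := {ω | ∀ s < K, ω (n + s) ∈ a n s}

lemma patt_eq_pi (K : ℕ) (a : ℕ → ℕ → Set ℕ) (n : ℕ) :
    patt K a n = Set.pi ((Finset.Ico n (n + K) : Finset ℕ) : Set ℕ) (fun i => a n (i - n)) := by
  ext ω
  simp only [patt, Set.mem_ofPred_eq, Set.mem_pi, Finset.coe_Ico, Set.mem_Ico]
  constructor
  · intro h i hi
    have := h (i - n) (by omega)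
    rwa [show n + (i - n) = i by omega] at this
  · intro h s hs
    have := h (n + s) (by omega)
    rwa [show n + s - n = s by omega] at this

lemma measurableSet_patt (K : ℕ) (a : ℕ → ℕ → Set ℕ) (n : ℕ) : MeasurableSet (patt K a n) := by
  rw [patt_eq_pi]
  exact MeasurableSet.pi (Finset.countable_toSet _) (fun i _ => MeasurableSet.of_discrete)

lemma prodP_patt (q : ℕ → ℕ) (K : ℕ) (a : ℕ → ℕ → Set ℕ) (n : ℕ) :
    prodP q (patt K a n) = ∏ s ∈ Finset.range K, unif (q (n + s)) (a n s) := by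
  rw [patt_eq_pi, prodP, Measure.infinitePi_pi _ (fun i _ => MeasurableSet.of_discrete),
    Finset.prod_Ico_eq_prod_range]
  rw [show n + K - n = K by omega]
  refine Finset.prod_congr rfl (fun s _ => ?_)
  rw [show n + s - n = s by omega]

lemma prodP_real_patt (q : ℕ → ℕ) (K : ℕ) (a : ℕ → ℕ → Set ℕ) (n : ℕ) :
    (prodP q).real (patt K a n) = ∏ s ∈ Finset.range K, (unif (q (n + s))).real (a n s) := by
  rw [measureReal_def, prodP_patt, ENNReal.toReal_prod]
  rfl

lemma patt_indep (q : ℕ → ℕ) (K : ℕ) (a : ℕ → ℕ → Set ℕ) (n m : ℕ) (h : n + K ≤ m) :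
    prodP q (patt K a n ∩ patt K a m) = prodP q (patt K a n) * prodP q (patt K a m) := by
  classical
  have hinter : patt K a n ∩ patt K a m =
      Set.pi (((Finset.Ico n (n + K)) ∪ (Finset.Ico m (m + K)) : Finset ℕ) : Set ℕ)
        (fun i => if i < n + K then a n (i - n) else a m (i - m)) := by
    rw [patt_eq_pi, patt_eq_pi]
    ext ω
    simp only [Set.mem_inter_iff, Set.mem_pi, Finset.coe_Ico, Set.mem_Ico, Finset.coe_union,
      Set.mem_union]
    constructor
    · rintro ⟨h1, h2⟩ i hi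
      split_ifs with h3
      · exact h1 i (by omega)
      · exact h2 i (by omega)
    · intro h1
      refine ⟨fun i hi => ?_, fun i hi => ?_⟩
      · have := h1 i (Or.inl hi)
        rwa [if_pos hi.2] at this
      · have := h1 i (Or.inr hi)
        rwa [if_neg (by omega)] at this
  have hdisj : Disjoint (Finset.Ico n (n + K)) (Finset.Ico m (m + K)) := by
    rw [Finset.disjoint_left]
    intro i hi hj
    rw [Finset.mem_Ico] at hi hj
    omega
  rw [hinter, prodP, Measure.infinitePi_pi _ (fun i _ => MeasurableSet.of_discrete),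
    Finset.prod_union hdisj, ← prodP]
  congr 1
  · rw [patt_eq_pi, prodP, Measure.infinitePi_pi _ (fun i _ => MeasurableSet.of_discrete)]
    refine Finset.prod_congr rfl (fun i hi => ?_)
    rw [Finset.mem_Ico] at hi
    rw [if_pos hi.2]
  · rw [patt_eq_pi, prodP, Measure.infinitePi_pi _ (fun i _ => MeasurableSet.of_discrete)]
    refine Finset.prod_congr rfl (fun i hi => ?_)
    rw [Finset.mem_Ico] at hi
    rw [if_neg (by omega)]

lemma patt_law (q : ℕ → ℕ) (K : ℕ) (a : ℕ → ℕ → Set ℕ)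
    (hdiv : Tendsto (fun n => ∑ i ∈ Icc 1 n, (prodP q).real (patt K a i)) atTop atTop) :
    ∀ᵐ ω ∂(prodP q), Tendsto (fun n => (∑ i ∈ Icc 1 n, (patt K a i).indicator (fun _ => (1:ℝ)) ω) /
      ∑ i ∈ Icc 1 n, (prodP q).real (patt K a i)) atTop (𝓝 1) :=
  strong_law_events (prodP q) (patt K a) (measurableSet_patt K a) K (patt_indep q K a) hdiv

/-- Almost surely all digits are valid. -/
lemma ae_valid {q : ℕ → ℕ} (hq : IsBasic q) : ∀ᵐ ω ∂(prodP q), ∀ n, 1 ≤ n → ω n < q n := by
  rw [ae_all_iff]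
  intro n
  by_cases hn : 1 ≤ n
  · have h1 : prodP q (patt 1 (fun i _ => Set.Iio (q i)) n) = 1 := by
      rw [prodP_patt]
      simp only [Finset.range_one, Finset.prod_singleton, add_zero]
      exact unif_Iio _ (by have := hq n hn; omega)
    have h2 : ∀ᵐ ω ∂(prodP q), ω ∈ patt 1 (fun i _ => Set.Iio (q i)) n := by
      rw [← prob_compl_eq_zero_iff (measurableSet_patt _ _ _)] at h1
      exact h1
    filter_upwards [h2] with ω hω _
    have := hω 0 (by norm_num)
    simpa using this
  · exact Eventually.of_forall (fun ω h => absurd h hn)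

/-- If two sequences differ eventually by a constant and the second tends to infinity, the ratio
tends to `1`. -/
lemma ratio_one {F G : ℕ → ℝ} (hG : Tendsto G atTop atTop) (c : ℝ)
    (h : ∀ᶠ n in atTop, F n = G n + c) : Tendsto (fun n => F n / G n) atTop (𝓝 1) := by
  have h1 : Tendsto (fun n => 1 + c * (G n)⁻¹) atTop (𝓝 (1 + c * 0)) :=
    tendsto_const_nhds.add ((tendsto_inv_atTop_zero.comp hG).const_mul c)
  simp only [mul_zero, add_zero] at h1
  refine h1.congr' ?_
  filter_upwards [h, hG.eventually_gt_atTop 0] with n hn hpos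
  rw [hn]
  field_simp

lemma sum_eventually_const (f g : ℕ → ℝ) (i₀ : ℕ) (h : ∀ i, i₀ ≤ i → f i = g i) :
    ∃ c : ℝ, ∀ᶠ n in atTop, ∑ i ∈ Icc 1 n, f i = ∑ i ∈ Icc 1 n, g i + c := by
  refine ⟨∑ i ∈ Icc 1 i₀, (f i - g i), ?_⟩
  filter_upwards [eventually_ge_atTop i₀] with n hn
  rw [← sub_eq_iff_eq_add', ← Finset.sum_sub_distrib]
  symm
  apply Finset.sum_subset
  · exact Finset.Icc_subset_Icc_right hn
  · intro i hi hni
    simp only [Finset.mem_Icc] at hi hni
    rw [h i (by omega), sub_self]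

lemma blockCount_eq_sum (E : ℕ → ℕ) {k : ℕ} (B : Fin k → ℕ) (n : ℕ) :
    (blockCount E B n : ℝ) = ∑ i ∈ Icc 1 n, (if ∀ s : Fin k, E (i + s) = B s then (1:ℝ) else 0) := by
  rw [blockCount, Finset.card_filter]
  push_cast
  rfl

/-- If `Y` and `ω` have the same occurrences of `B` from some point on, the counts differ by an
eventually constant amount. -/
lemma blockCount_sub_const (E E' : ℕ → ℕ) {k : ℕ} (B : Fin k → ℕ) (i₀ : ℕ)
    (h : ∀ i, i₀ ≤ i → ((∀ s : Fin k, E (i + s) = B s) ↔ (∀ s : Fin k, E' (i + s) = B s))) :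
    ∃ c : ℝ, ∀ᶠ n in atTop, (blockCount E B n : ℝ) = blockCount E' B n + c := by
  simp only [blockCount_eq_sum]
  apply sum_eventually_const _ _ i₀
  intro i hi
  simp only [h i hi]

/-- If the block frequencies are right for `E'`, and `E` has eventually the same occurrences, they
are right for `E`. -/
lemma tendsto_of_same {q : ℕ → ℕ} (E E' : ℕ → ℕ) {k : ℕ} (B : Fin k → ℕ) (i₀ : ℕ)
    (h : ∀ i, i₀ ≤ i → ((∀ s : Fin k, E (i + s) = B s) ↔ (∀ s : Fin k, E' (i + s) = B s)))
    (hdiv : Tendsto (blockMass q k) atTop atTop)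
    (hE' : Tendsto (fun n => (blockCount E' B n : ℝ) / blockMass q k n) atTop (𝓝 1)) :
    Tendsto (fun n => (blockCount E B n : ℝ) / blockMass q k n) atTop (𝓝 1) := by
  obtain ⟨c, hc⟩ := blockCount_sub_const E E' B i₀ h
  have h1 : Tendsto (fun n => (blockCount E' B n : ℝ) / blockMass q k n +
      c * (blockMass q k n)⁻¹) atTop (𝓝 (1 + c * 0)) :=
    hE'.add ((tendsto_inv_atTop_zero.comp hdiv).const_mul c)
  simp only [mul_zero, add_zero] at h1
  refine h1.congr' ?_
  filter_upwards [hc, hdiv.eventually_gt_atTop 0] with n hn hpos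
  rw [hn]
  field_simp

lemma eventually_lt_of_limit {q : ℕ → ℕ} (hlim : InfiniteInLimit q) (m : ℕ) :
    ∃ i₀ : ℕ, 1 ≤ i₀ ∧ ∀ i, i₀ ≤ i → m < q i := by
  obtain ⟨i₀, hi₀⟩ := eventually_atTop.1 (hlim.eventually_gt_atTop m)
  exact ⟨max i₀ 1, le_max_right _ _, fun i hi => hi₀ i (le_trans (le_max_left _ _) hi)⟩

/-- Pattern law in convenient form. If `patt K a i` has probability `c i ∏ 1/q` for `i ≥ i₀`... -/
lemma blockMass_div {q : ℕ → ℕ} (k : ℕ) (f : ℕ → ℝ) (i₀ : ℕ)
    (hdiv : Tendsto (blockMass q k) atTop atTop)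
    (hf : ∀ i, i₀ ≤ i → f i = 1 / ∏ s ∈ Finset.range k, (q (i + s) : ℝ)) :
    Tendsto (fun n => (∑ i ∈ Icc 1 n, f i) / blockMass q k n) atTop (𝓝 1) ∧
    Tendsto (fun n => ∑ i ∈ Icc 1 n, f i) atTop atTop := by
  obtain ⟨c, hc⟩ := sum_eventually_const f (fun i => 1 / ∏ s ∈ Finset.range k, (q (i + s) : ℝ)) i₀ hf
  constructor
  · exact ratio_one hdiv c hc
  · have : Tendsto (fun n => blockMass q k n + c) atTop atTop :=
      tendsto_atTop_add_const_right _ c hdiv
    exact this.congr' (hc.mono (fun n hn => hn.symm))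

/-- Almost every digit sequence is normal. -/
theorem ae_normal {q : ℕ → ℕ} (hlim : InfiniteInLimit q)
    (hdiv : FullyDivergent q) :
    ∀ᵐ ω ∂(prodP q), ∀ k : ℕ, 1 ≤ k → ∀ B : Fin k → ℕ,
      Tendsto (fun n => (blockCount ω B n : ℝ) / blockMass q k n) atTop (𝓝 1) := by
  rw [ae_all_iff]
  intro k
  by_cases hk : 1 ≤ k
  swap
  · exact Eventually.of_forall (fun ω h => absurd h hk)
  simp only [hk, true_imp_iff]
  rw [ae_all_iff]
  intro B
  -- bound on the digits of `B`
  obtain ⟨m, hm⟩ : ∃ m, ∀ s, B s ≤ m := ⟨Finset.univ.sup B, fun s => Finset.le_sup (Finset.mem_univ s)⟩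
  obtain ⟨i₀, hi₀, hi₀'⟩ := eventually_lt_of_limit hlim m
  set a : ℕ → ℕ → Set ℕ := fun _ s => if h : s < k then {B ⟨s, h⟩} else Set.univ with ha
  have hprob : ∀ i, i₀ ≤ i → (prodP q).real (patt k a i) =
      1 / ∏ s ∈ Finset.range k, (q (i + s) : ℝ) := by
    intro i hi
    rw [prodP_real_patt, one_div, ← Finset.prod_inv_distrib]
    refine Finset.prod_congr rfl (fun s hs => ?_)
    have hs' := Finset.mem_range.1 hs
    simp only [ha, dif_pos hs']
    rw [unif_singleton _ _ (lt_of_le_of_lt (hm _) (hi₀' (i + s) (by omega))), one_div]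
  obtain ⟨h1, h2⟩ := blockMass_div k _ i₀ (hdiv k hk) hprob
  filter_upwards [patt_law q k a h2] with ω hω
  have h3 := hω.mul h1
  rw [mul_one] at h3
  refine h3.congr' ?_
  filter_upwards [h2.eventually_gt_atTop 0] with n hn
  rw [div_mul_div_cancel₀ hn.ne', blockCount_eq_sum]
  congr 1
  refine Finset.sum_congr rfl (fun i _ => ?_)
  have hiff : ω ∈ patt k a i ↔ ∀ s : Fin k, ω (i + s) = B s := by
    simp only [patt, Set.mem_ofPred_eq, ha]
    constructor
    · intro h s
      have := h s.1 s.2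
      rw [dif_pos s.2] at this
      simpa using this
    · intro h s hs
      rw [dif_pos hs]
      simpa using h ⟨s, hs⟩
  rw [Set.indicator]
  simp only [hiff]

end Pool.Agent.Helper1.Cantor
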