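import Mathlib
import Pool.Agent.Helper1.CantorProb

set_option autoImplicit false
open Filter Topology Finset MeasureTheory
open scoped ENNReal NNReal

namespace Pool.Agent.Helper1.Cantor

lemma unif_Ici (m : ℕ) (hm : 1 ≤ m) : unif m (Set.Ici m) = 0 := by
  have h := unif_Iio m hm
  rw [← prob_compl_eq_zero_iff (MeasurableSet.of_discrete)] at h
  have : (Set.Iio m)ᶜ = Set.Ici m := by ext; simp
  rwa [this] at h

/-- two-element sets together with invalid digits have probability at most `2 / m`. -/
lemma unif_two (m : ℕ) (hm : 1 ≤ m) (a b : ℕ) (S : Set ℕ) (hS : ∀ e ∈ S, e = a ∨ e = b ∨ m ≤ e) :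
    (unif m).real S ≤ 2 / m := by
  have hsub : S ⊆ (({a, b} : Finset ℕ) : Set ℕ) ∪ Set.Ici m := by
    intro e he
    rcases hS e he with h | h | h
    · left; simp [h]
    · left; simp [h]
    · right; exact h
  calc (unif m).real S ≤ (unif m).real ((({a, b} : Finset ℕ) : Set ℕ) ∪ Set.Ici m) :=
        measureReal_mono hsub
    _ ≤ (unif m).real (({a, b} : Finset ℕ) : Set ℕ) + (unif m).real (Set.Ici m) :=
        measureReal_union_le _ _
    _ = (unif m).real (({a, b} : Finset ℕ) : Set ℕ) := by
        rw [measureReal_def (unif m) (Set.Ici m), unif_Ici m hm]; simp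
    _ ≤ (({a, b} : Finset ℕ).card : ℝ) / m := unif_real m hm _
    _ ≤ 2 / m := by
        have : ({a, b} : Finset ℕ).card ≤ 2 := Finset.card_le_two
        have h2 : (({a, b} : Finset ℕ).card : ℝ) ≤ 2 := by exact_mod_cast this
        gcongr

/-- Cylinder bound for transformed digits. -/
lemma cyl_bound {q : ℕ → ℕ} (Y : (ℕ → ℕ) → ℕ → ℕ) (S : ℕ → ℕ → Set ℕ)
    (hY : ∀ ω i, 1 ≤ i → ω i ∈ S i (Y ω i))
    (hS : ∀ i, 1 ≤ i → ∀ d, (unif (q i)).real (S i d) ≤ 2 / q i) (N : ℕ) (d : ℕ → ℕ) :
    (prodP q).real {ω | ∀ i ∈ Finset.Icc 1 N, Y ω i = d i} ≤ 2 ^ N / (cumProd q N : ℝ) := by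
  have hsub : {ω : ℕ → ℕ | ∀ i ∈ Finset.Icc 1 N, Y ω i = d i} ⊆
      Set.pi ((Finset.Icc 1 N : Finset ℕ) : Set ℕ) (fun i => S i (d i)) := by
    intro ω hω
    simp only [Set.mem_ofPred_eq] at hω
    rw [Set.mem_pi]
    intro i hi
    rw [Finset.mem_coe] at hi
    rw [← hω i hi]
    exact hY ω i (Finset.mem_Icc.1 hi).1
  calc (prodP q).real {ω | ∀ i ∈ Finset.Icc 1 N, Y ω i = d i}
      ≤ (prodP q).real (Set.pi ((Finset.Icc 1 N : Finset ℕ) : Set ℕ) (fun i => S i (d i))) :=
        measureReal_mono hsub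
    _ = ∏ i ∈ Finset.Icc 1 N, (unif (q i)).real (S i (d i)) := by
        rw [measureReal_def, prodP, Measure.infinitePi_pi _ (fun i _ => MeasurableSet.of_discrete),
          ENNReal.toReal_prod]
        rfl
    _ ≤ ∏ i ∈ Finset.Icc 1 N, (2 / q i : ℝ) := by
        apply Finset.prod_le_prod
        · intro i _; exact measureReal_nonneg
        · intro i hi; exact hS i (Finset.mem_Icc.1 hi).1 _
    _ = 2 ^ N / (cumProd q N : ℝ) := by
        rw [Finset.prod_div_distrib, Finset.prod_const, Nat.card_Icc, cumProd_cast]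
        simp

/-- Digit transformation for Q1: digits in the upper half are pushed down by a quarter. -/
def pushDown (m e : ℕ) : ℕ := if e < m then (if m ≤ 2 * e then e - m / 4 else e) else 0

lemma pushDown_lt (m e : ℕ) (hm : 1 ≤ m) : pushDown m e < m := by
  unfold pushDown; split_ifs <;> omega

lemma pushDown_mem (m e : ℕ) : e = pushDown m e ∨ e = pushDown m e + m / 4 ∨ m ≤ e := by
  unfold pushDown; split_ifs <;> omega

lemma pushDown_upper (m e : ℕ) (hm : 4 ≤ m) : 4 * pushDown m e ≤ 3 * m := by
  unfold pushDown; split_ifs <;> omega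

lemma pushDown_small (m e b : ℕ) (he : e < m) (hb : 4 * b + 4 < m) : pushDown m e = b ↔ e = b := by
  unfold pushDown; split_ifs <;> omega

/-- `dim_H (𝒩(Q) \ 𝒟𝒩(Q)) = 1`. -/
theorem dimH_normal_diff_distNormal {q : ℕ → ℕ} (hq : IsBasic q) (hlim : InfiniteInLimit q)
    (hdiv : FullyDivergent q) : dimH (QNormal q \ DistNormal q) = 1 := by
  set Y : (ℕ → ℕ) → ℕ → ℕ := fun ω i => pushDown (q i) (ω i) with hYdef
  have hYlt : ∀ ω n, 1 ≤ n → Y ω n < q n := fun ω n hn =>
    pushDown_lt _ _ (by have := hq n hn; omega)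
  have hYm : ∀ n, Measurable (fun ω => Y ω n) := fun n =>
    (measurable_of_countable (pushDown (q n))).comp (measurable_pi_apply n)
  obtain ⟨i₁, hi₁, hi₁'⟩ := eventually_lt_of_limit hlim 16
  refine dimH_eq_one_of_ae (prodP q) hq hlim Y hYm hYlt 2 (by norm_num) ?_ _ ?_
  · refine cyl_bound Y (fun i d => {e | e = d ∨ e = d + q i / 4 ∨ q i ≤ e}) ?_ ?_
    · intro ω i _
      exact pushDown_mem _ _
    · intro i hi d
      exact unif_two _ (by have := hq i hi; omega) d (d + q i / 4) _ (fun e he => he)
  · filter_upwards [ae_valid hq, ae_normal hlim hdiv] with ω hvalid hnormal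
    have hfreq : ∃ᶠ n in atTop, Y ω n ≠ q n - 1 := by
      apply Eventually.frequently
      filter_upwards [eventually_ge_atTop i₁] with n hn
      have h1 := hi₁' n hn
      have h2 := pushDown_upper (q n) (ω n) (by omega)
      show pushDown (q n) (ω n) ≠ q n - 1
      omega
    have hexp : IsExpansion q (Y ω) (cantorSum q (Y ω)) := isExpansion_cantorSum hq (hYlt ω) hfreq
    constructor
    · -- normality
      intro k hk
      refine ⟨Y ω, hexp, fun B => ?_⟩
      obtain ⟨m, hm⟩ : ∃ m, ∀ s, B s ≤ m :=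
        ⟨Finset.univ.sup B, fun s => Finset.le_sup (Finset.mem_univ s)⟩
      obtain ⟨i₀, hi₀, hi₀'⟩ := eventually_lt_of_limit hlim (4 * m + 4)
      refine tendsto_of_same (Y ω) ω B i₀ ?_ (hdiv k hk) (hnormal k hk B)
      intro i hi
      constructor
      · intro h s
        have h1 := hi₀' (i + s) (by omega)
        have h2 := hm s
        exact (pushDown_small _ _ _ (hvalid (i + s) (by omega)) (by omega)).1 (h s)
      · intro h s
        have h1 := hi₀' (i + s) (by omega)
        have h2 := hm s
        exact (pushDown_small _ _ _ (hvalid (i + s) (by omega)) (by omega)).2 (h s)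
    · -- not distribution normal
      intro hDN
      have h1 := hDN (7/8) 1 (by norm_num) (by norm_num) le_rfl
      have hsmall : ∀ n, i₁ ≤ n → Int.fract (shiftMap q n (cantorSum q (Y ω))) < 7/8 := by
        intro n hn
        have hfr : Int.fract (shiftMap q n (cantorSum q (Y ω))) =
            shiftMap q n (cantorSum q (Y ω)) := by
          unfold shiftMap; exact Int.fract_fract _
        rw [hfr]
        refine lt_of_le_of_lt (shiftMap_le hq hexp n) ?_
        have h2 := hi₁' (n+1) (by omega)
        have h3 := pushDown_upper (q (n+1)) (ω (n+1)) (by omega)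
        have h4 : (0:ℝ) < q (n+1) := by exact_mod_cast (by omega : 0 < q (n+1))
        rw [div_lt_iff₀ h4]
        have h5 : 4 * (Y ω (n+1) : ℝ) ≤ 3 * q (n+1) := by exact_mod_cast h3
        have h6 : (16:ℝ) < q (n+1) := by exact_mod_cast h2
        linarith
      have hcard : ∀ N : ℕ, (Nat.card {n : ℕ // n < N ∧
          Int.fract (shiftMap q n (cantorSum q (Y ω))) ∈ Set.Ico (7/8 : ℝ) 1} : ℝ) ≤ i₁ := by
        intro N
        have hinj : Nat.card {n : ℕ // n < N ∧
          Int.fract (shiftMap q n (cantorSum q (Y ω))) ∈ Set.Ico (7/8 : ℝ) 1} ≤ Nat.card (Fin i₁) := by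
          refine Nat.card_le_card_of_injective (fun n => (⟨n.1, ?_⟩ : Fin i₁)) ?_
          · by_contra hcon
            push Not at hcon
            have := hsmall n.1 hcon
            have h7 := n.2.2.1
            linarith
          · intro a b hab
            simp only [Fin.mk.injEq] at hab
            exact Subtype.ext hab
        rw [Nat.card_fin] at hinj
        exact_mod_cast hinj
      have h2 : Tendsto (fun N : ℕ => (Nat.card {n : ℕ // n < N ∧
          Int.fract (shiftMap q n (cantorSum q (Y ω))) ∈ Set.Ico (7/8 : ℝ) 1} : ℝ) / N) atTop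
          (𝓝 0) := by
        have h3 : Tendsto (fun N : ℕ => (i₁ : ℝ) / N) atTop (𝓝 0) :=
          tendsto_const_div_atTop_nhds_zero_nat _
        refine squeeze_zero (fun N => by positivity) (fun N => ?_) h3
        have := hcard N
        gcongr
      have h3 := tendsto_nhds_unique h1 h2
      norm_num at h3

end Pool.Agent.Helper1.Cantor
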