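import Mathlib
import Pool.Agent.Helper1.CantorQ1

set_option autoImplicit false
open Filter Topology Finset MeasureTheory
open scoped ENNReal NNReal

namespace Pool.Agent.Helper1.Cantor

/-- a digit which is large but not the top digit. -/
def Safe (m e : ℕ) : Prop := m ≤ 2 * e ∧ e + 1 < m

/-- `i` lies in a maximal run of top digits of length `< ℓ` bounded by safe digits. -/
def Marked (ℓ : ℕ) (q ω : ℕ → ℕ) (i : ℕ) : Prop :=
  ∃ s r : ℕ, (1 ≤ s ∧ s < i ∧ i ≤ s + r ∧ r < ℓ) ∧ Safe (q s) (ω s) ∧
    (∀ u, (s < u ∧ u ≤ s + r) → ω u + 1 = q u) ∧ Safe (q (s + r + 1)) (ω (s + r + 1))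

lemma Marked.top {ℓ : ℕ} {q ω : ℕ → ℕ} {i : ℕ} (h : Marked ℓ q ω i) : ω i + 1 = q i := by
  obtain ⟨s, r, h1, _, h3, _⟩ := h
  exact h3 i ⟨h1.2.1, h1.2.2.1⟩

open Classical in
/-- transformed digits for Q2. -/
noncomputable def reset (ℓ : ℕ) (q ω : ℕ → ℕ) (i : ℕ) : ℕ :=
  if Marked ℓ q ω i then 0 else if ω i < q i then ω i else 0

lemma reset_lt {ℓ : ℕ} {q : ℕ → ℕ} (hq : IsBasic q) (ω : ℕ → ℕ) (i : ℕ) (hi : 1 ≤ i) :
    reset ℓ q ω i < q i := by
  have := hq i hi
  unfold reset; split_ifs <;> omega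

lemma reset_mem {ℓ : ℕ} {q : ℕ → ℕ} (ω : ℕ → ℕ) (i : ℕ) :
    ω i = reset ℓ q ω i ∨ ω i = q i - 1 ∨ q i ≤ ω i := by
  unfold reset
  split_ifs with h1 h2
  · have := h1.top; omega
  · left; rfl
  · right; right; omega

lemma reset_of_ne_top {ℓ : ℕ} {q : ℕ → ℕ} {ω : ℕ → ℕ} {i : ℕ} (h1 : ω i < q i) (h2 : ω i + 1 ≠ q i) :
    reset ℓ q ω i = ω i := by
  unfold reset
  rw [if_neg (fun h => h2 h.top), if_pos h1]

lemma measurable_reset (ℓ : ℕ) (q : ℕ → ℕ) (i : ℕ) : Measurable (fun ω => reset ℓ q ω i) := by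
  classical
  unfold reset
  have hcoord : ∀ (n : ℕ) (R : ℕ → Prop), MeasurableSet {ω : ℕ → ℕ | R (ω n)} := by
    intro n R
    exact (measurable_pi_apply n) (MeasurableSet.of_discrete (s := {e | R e}))
  refine Measurable.ite ?_ measurable_const (Measurable.ite ?_ (measurable_pi_apply i) measurable_const)
  · have : {ω : ℕ → ℕ | Marked ℓ q ω i} = ⋃ s, ⋃ r, {ω : ℕ → ℕ | 1 ≤ s ∧ s < i ∧ i ≤ s + r ∧ r < ℓ} ∩
        ({ω | Safe (q s) (ω s)} ∩ ((⋂ u, {ω | (s < u ∧ u ≤ s + r) → ω u + 1 = q u}) ∩
          {ω | Safe (q (s + r + 1)) (ω (s + r + 1))})) := by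
      ext ω
      simp only [Marked, Set.mem_ofPred_eq, Set.mem_iUnion, Set.mem_inter_iff, Set.mem_iInter]
    rw [this]
    refine MeasurableSet.iUnion (fun s => MeasurableSet.iUnion (fun r => ?_))
    refine MeasurableSet.inter (MeasurableSet.const _) (MeasurableSet.inter ?_ (MeasurableSet.inter ?_ ?_))
    · exact hcoord s (fun e => Safe (q s) e)
    · exact MeasurableSet.iInter (fun u => hcoord u (fun e => (s < u ∧ u ≤ s + r) → e + 1 = q u))
    · exact hcoord (s + r + 1) (fun e => Safe (q (s + r + 1)) e)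
  · exact hcoord i (fun e => e < q i)

/-- Blocks of length `≥ ℓ` are (eventually) not affected. -/
lemma reset_match {ℓ : ℕ} {q : ℕ → ℕ} {ω : ℕ → ℕ} (hvalid : ∀ n, 1 ≤ n → ω n < q n)
    {k : ℕ} (hk : ℓ ≤ k) (B : Fin k → ℕ) (m : ℕ) (hm : ∀ s, B s ≤ m) (i : ℕ) (hi1 : 1 ≤ i)
    (hi : ∀ j, i ≤ j → 2 * m + 2 < q j) :
    (∀ s : Fin k, reset ℓ q ω (i + s) = B s) ↔ (∀ s : Fin k, ω (i + s) = B s) := by
  constructor
  · intro h s
    by_cases hM : Marked ℓ q ω (i + s)
    · exfalso
      obtain ⟨s0, r, ⟨h1, h2, h3, h4⟩, h5, h6, h7⟩ := hM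
      have key : ∀ t : ℕ, t < k → ¬ Safe (q (i + t)) (ω (i + t)) := by
        intro t ht hs
        have e1 := h ⟨t, ht⟩
        have e2 := hm ⟨t, ht⟩
        have e3 := hi (i + t) (by omega)
        simp only at e1
        rw [reset_of_ne_top (hvalid _ (by omega)) (by have := hs.2; omega)] at e1
        have := hs.1
        omega
      rcases Nat.lt_or_ge s0 i with hlt | hge
      · have e : s0 + r + 1 = i + (s0 + r + 1 - i) := by omega
        rw [e] at h7
        refine key _ ?_ h7
        omega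
      · have e : s0 = i + (s0 - i) := by omega
        rw [e] at h5
        refine key _ ?_ h5
        have := s.2
        omega
    · have e1 := h s
      unfold reset at e1
      rw [if_neg hM, if_pos (hvalid _ (by omega))] at e1
      exact e1
  · intro h s
    have e1 := h s
    have e2 := hm s
    have e3 := hi (i + s) (by omega)
    rw [reset_of_ne_top (hvalid _ (by omega)) (by omega)]
    exact e1

lemma safe_prob (m : ℕ) (hm : 6 ≤ m) : 1 / 4 ≤ (unif m).real {e | Safe m e} := by
  have h1 := unif_real_eq m (by omega) (Finset.Ico ((m + 1) / 2) (m - 1)) (by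
    intro s hs
    rw [Finset.mem_Ico] at hs
    omega)
  have h2 : ((Finset.Ico ((m + 1) / 2) (m - 1) : Finset ℕ) : Set ℕ) = {e | Safe m e} := by
    ext e
    simp only [Finset.coe_Ico, Set.mem_Ico, Set.mem_ofPred_eq, Safe]
    omega
  rw [h2, Nat.card_Ico] at h1
  rw [h1]
  have hmpos : (0:ℝ) < m := by exact_mod_cast (by omega : 0 < m)
  rw [div_le_div_iff₀ (by norm_num) hmpos]
  have h3 : m ≤ 4 * (m - 1 - (m + 1) / 2) := by omega
  have h4 : (m : ℝ) ≤ 4 * ((m - 1 - (m + 1) / 2 : ℕ) : ℝ) := by exact_mod_cast h3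
  linarith

/-- pattern: safe, `j` top digits, safe. -/
def runPat (q : ℕ → ℕ) (j : ℕ) : ℕ → ℕ → Set ℕ := fun i s =>
  if s = 0 then {e | Safe (q i) e} else if s ≤ j then {q (i + s) - 1} else {e | Safe (q (i + s)) e}

lemma runPat_prob {q : ℕ → ℕ} (j i : ℕ) (hi : ∀ n, i ≤ n → 6 ≤ q n) :
    (1/16) * (1 / ∏ s ∈ Finset.range j, (q (i + 1 + s) : ℝ)) ≤
      (prodP q).real (patt (j + 2) (runPat q j) i) := by
  rw [prodP_real_patt, Finset.prod_range_succ, Finset.prod_range_succ']
  have h0 : 1 / 4 ≤ (unif (q (i + 0))).real (runPat q j i 0) := by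
    simp only [runPat, if_true, add_zero]
    exact safe_prob _ (hi i le_rfl)
  have h1 : 1 / 4 ≤ (unif (q (i + (j + 1)))).real (runPat q j i (j + 1)) := by
    have : runPat q j i (j + 1) = {e | Safe (q (i + (j+1))) e} := by
      simp [runPat]
    rw [this]
    exact safe_prob _ (hi _ (by omega))
  have h2 : ∏ s ∈ Finset.range j, (unif (q (i + (s + 1)))).real (runPat q j i (s + 1)) =
      1 / ∏ s ∈ Finset.range j, (q (i + 1 + s) : ℝ) := by
    rw [one_div, ← Finset.prod_inv_distrib]
    refine Finset.prod_congr rfl (fun s hs => ?_)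
    have hs' := Finset.mem_range.1 hs
    have e1 : runPat q j i (s + 1) = {q (i + (s + 1)) - 1} := by
      simp only [runPat]
      rw [if_neg (by omega), if_pos (by omega)]
    have e2 := hi (i + (s + 1)) (by omega)
    rw [e1, unif_singleton _ _ (by omega), one_div, show i + 1 + s = i + (s + 1) by ring]
  rw [h2]
  have h3 : (0:ℝ) ≤ 1 / ∏ s ∈ Finset.range j, (q (i + 1 + s) : ℝ) := by positivity
  calc (1/16) * (1 / ∏ s ∈ Finset.range j, (q (i + 1 + s) : ℝ))
      = (1 / ∏ s ∈ Finset.range j, (q (i + 1 + s) : ℝ)) * (1/4) * (1/4) := by ring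
    _ ≤ _ := by gcongr

/-- Frequencies of `0^j` become too large for `1 ≤ j < ℓ`. -/
lemma reset_zero_count {ℓ : ℕ} {q : ℕ → ℕ} (hq : IsBasic q) {ω : ℕ → ℕ} {j : ℕ} (hj1 : 1 ≤ j)
    (hj : j < ℓ) (n : ℕ) :
    (blockCount ω (fun _ : Fin j => 0) (n + 1) : ℝ) +
      ∑ i ∈ Icc 1 n, (patt (j + 2) (runPat q j) i).indicator (fun _ => (1:ℝ)) ω ≤
    blockCount (reset ℓ q ω) (fun _ : Fin j => 0) (n + 1) := by
  classical
  have hsum : ∑ i ∈ Icc 1 n, (patt (j + 2) (runPat q j) i).indicator (fun _ => (1:ℝ)) ω =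
      (((Icc 1 n).filter (fun i => ω ∈ patt (j + 2) (runPat q j) i)).card : ℝ) := by
    rw [Finset.card_filter]
    push_cast
    refine Finset.sum_congr rfl (fun i _ => ?_)
    simp only [Set.indicator]
  rw [hsum]
  unfold blockCount
  set S1 := (Icc 1 (n + 1)).filter (fun i => ∀ s : Fin j, ω (i + s) = 0) with hS1
  set S2 := ((Icc 1 n).filter (fun i => ω ∈ patt (j + 2) (runPat q j) i)) with hS2
  have hcard : S1.card + S2.card ≤
      ((Icc 1 (n + 1)).filter (fun i => ∀ s : Fin j, reset ℓ q ω (i + s) = 0)).card := by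
    have hS2c : S2.card = (S2.image (· + 1)).card :=
      (Finset.card_image_of_injective _ (add_left_injective 1)).symm
    rw [hS2c, ← Finset.card_union_of_disjoint]
    · apply Finset.card_le_card
      intro i hi
      rw [Finset.mem_union] at hi
      rcases hi with hi | hi
      · rw [hS1, Finset.mem_filter, Finset.mem_Icc] at hi
        rw [Finset.mem_filter, Finset.mem_Icc]
        refine ⟨hi.1, fun s => ?_⟩
        have h1 := hi.2 s
        have h2 := hq (i + s) (by omega)
        rw [reset_of_ne_top (by omega) (by omega)]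
        exact h1
      · rw [Finset.mem_image] at hi
        obtain ⟨t, ht, rfl⟩ := hi
        rw [hS2, Finset.mem_filter, Finset.mem_Icc] at ht
        obtain ⟨ht1, ht2⟩ := ht
        simp only [patt, Set.mem_ofPred_eq] at ht2
        rw [Finset.mem_filter, Finset.mem_Icc]
        refine ⟨by omega, fun s => ?_⟩
        have hs := s.2
        have hmark : Marked ℓ q ω (t + 1 + s) := by
          refine ⟨t, j, ⟨by omega, by omega, by omega, hj⟩, ?_, ?_, ?_⟩
          · have := ht2 0 (by omega)
            simpa [runPat] using this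
          · intro u hu
            have := ht2 (u - t) (by omega)
            simp only [runPat] at this
            rw [if_neg (by omega), if_pos (by omega)] at this
            rw [show t + (u - t) = u by omega] at this
            have h2 := hq u (by omega)
            have h3 : ω u = q u - 1 := by simpa using this
            omega
          · have := ht2 (j + 1) (by omega)
            simp only [runPat] at this
            rw [if_neg (by omega), if_neg (by omega)] at this
            rw [show t + (j + 1) = t + j + 1 by ring] at this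
            exact this
        unfold reset
        rw [if_pos hmark]
    · rw [Finset.disjoint_left]
      intro i hi1 hi2
      rw [Finset.mem_image] at hi2
      obtain ⟨t, ht, rfl⟩ := hi2
      rw [hS2, Finset.mem_filter, Finset.mem_Icc] at ht
      obtain ⟨ht1, ht2⟩ := ht
      simp only [patt, Set.mem_ofPred_eq] at ht2
      rw [hS1, Finset.mem_filter, Finset.mem_Icc] at hi1
      have h1 := hi1.2 ⟨0, by omega⟩
      simp only [add_zero] at h1
      have h2 := ht2 1 (by omega)
      simp only [runPat] at h2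
      rw [if_neg (by omega), if_pos (by omega)] at h2
      have h3 := hq (t + 1) (by omega)
      have h4 : ω (t + 1) = q (t + 1) - 1 := by simpa using h2
      omega
  exact_mod_cast hcard

lemma blockMass_succ_ge {q : ℕ → ℕ} (hq : IsBasic q) (j n : ℕ) :
    blockMass q j (n + 1) - 1 ≤ ∑ i ∈ Icc 1 n, 1 / ∏ s ∈ Finset.range j, (q (i + 1 + s) : ℝ) := by
  unfold blockMass
  have h1 : ∑ i ∈ Icc 1 (n + 1), (1 / ∏ s ∈ Finset.range j, (q (i + s) : ℝ)) =
      1 / ∏ s ∈ Finset.range j, (q (1 + s) : ℝ) +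
        ∑ i ∈ Icc 1 n, 1 / ∏ s ∈ Finset.range j, (q (i + 1 + s) : ℝ) := by
    induction n with
    | zero => simp
    | succ n ih =>
      rw [Finset.sum_Icc_succ_top (by omega), ih, Finset.sum_Icc_succ_top (by omega)]
      ring
  rw [h1]
  have h2 : 1 / ∏ s ∈ Finset.range j, (q (1 + s) : ℝ) ≤ 1 := by
    rw [div_le_one]
    · have h3 : 1 ≤ ∏ s ∈ Finset.range j, q (1 + s) := by
        apply Nat.succ_le_of_lt
        apply Finset.prod_pos
        intro s _
        have := hq (1 + s) (by omega)
        omega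
      exact_mod_cast h3
    · apply Finset.prod_pos
      intro s _
      have := hq (1 + s) (by omega)
      exact_mod_cast (by omega : 0 < q (1 + s))
  linarith

/-- Q2. -/
theorem dimH_normality_orders {q : ℕ → ℕ} (hq : IsBasic q) (hlim : InfiniteInLimit q)
    (hdiv : FullyDivergent q) (ℓ : ℕ) (hℓ : 1 ≤ ℓ) :
    dimH ((⋂ j ∈ Set.Ici ℓ, NormalOrder q j) \ ⋃ j ∈ Set.Ico 1 ℓ, NormalOrder q j) = 1 := by
  set Y : (ℕ → ℕ) → ℕ → ℕ := fun ω i => reset ℓ q ω i with hYdef
  have hYlt : ∀ ω n, 1 ≤ n → Y ω n < q n := fun ω n hn => reset_lt hq ω n hn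
  have hYm : ∀ n, Measurable (fun ω => Y ω n) := fun n => measurable_reset ℓ q n
  obtain ⟨i₁, hi₁, hi₁'⟩ := eventually_lt_of_limit hlim 6
  -- divergence of the run probabilities
  have hrunlow : ∀ j : ℕ, ∃ c : ℝ, ∀ᶠ n in atTop, (1/16) * blockMass q j (n + 1) - c ≤
      ∑ i ∈ Icc 1 n, (prodP q).real (patt (j + 2) (runPat q j) i) := by
    intro j
    obtain ⟨c, hc⟩ := sum_eventually_const
      (fun i => if i₁ ≤ i then (1/16 : ℝ) * (1 / ∏ s ∈ Finset.range j, (q (i + 1 + s) : ℝ)) else 0)
      (fun i => (1/16 : ℝ) * (1 / ∏ s ∈ Finset.range j, (q (i + 1 + s) : ℝ))) i₁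
      (fun i hi => by simp [hi])
    refine ⟨1/16 - c, ?_⟩
    filter_upwards [hc] with n hn
    have h1 := blockMass_succ_ge hq j n
    calc (1/16) * blockMass q j (n + 1) - (1/16 - c)
        = (1/16) * (blockMass q j (n + 1) - 1) + c := by ring
      _ ≤ (1/16) * (∑ i ∈ Icc 1 n, 1 / ∏ s ∈ Finset.range j, (q (i + 1 + s) : ℝ)) + c := by
          gcongr
      _ = ∑ i ∈ Icc 1 n, (if i₁ ≤ i then (1/16 : ℝ) *
            (1 / ∏ s ∈ Finset.range j, (q (i + 1 + s) : ℝ)) else 0) := by
          rw [hn, Finset.mul_sum]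
      _ ≤ _ := by
          refine Finset.sum_le_sum (fun i _ => ?_)
          split_ifs with h
          · exact runPat_prob j i (fun n hn => (hi₁' n (h.trans hn)).le)
          · exact measureReal_nonneg
  have hrundiv : ∀ j : ℕ, 1 ≤ j → Tendsto (fun n => ∑ i ∈ Icc 1 n,
      (prodP q).real (patt (j + 2) (runPat q j) i)) atTop atTop := by
    intro j hj
    obtain ⟨c, hc⟩ := hrunlow j
    refine tendsto_atTop_mono' _ hc ?_
    have h1 : Tendsto (fun n => (1/16) * blockMass q j (n + 1)) atTop atTop :=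
      ((hdiv j hj).comp (tendsto_add_atTop_nat 1)).const_mul_atTop (by norm_num)
    exact tendsto_atTop_add_const_right _ (-c) h1
  have hruns : ∀ᵐ ω ∂(prodP q), ∀ j : ℕ, 1 ≤ j → Tendsto (fun n =>
      (∑ i ∈ Icc 1 n, (patt (j + 2) (runPat q j) i).indicator (fun _ => (1:ℝ)) ω) /
      ∑ i ∈ Icc 1 n, (prodP q).real (patt (j + 2) (runPat q j) i)) atTop (𝓝 1) := by
    rw [ae_all_iff]
    intro j
    by_cases hj : 1 ≤ j
    · filter_upwards [patt_law q (j + 2) (runPat q j) (hrundiv j hj)] with ω hω _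
      exact hω
    · exact Eventually.of_forall (fun ω h => absurd h hj)
  refine dimH_eq_one_of_ae (prodP q) hq hlim Y hYm hYlt 2 (by norm_num) ?_ _ ?_
  · refine cyl_bound Y (fun i d => {e | e = d ∨ e = q i - 1 ∨ q i ≤ e}) ?_ ?_
    · intro ω i _
      exact reset_mem _ _
    · intro i hi d
      exact unif_two _ (by have := hq i hi; omega) d (q i - 1) _ (fun e he => he)
  · filter_upwards [ae_valid hq, ae_normal hlim hdiv, hruns] with ω hvalid hnormal hrun
    have hfreq : ∃ᶠ n in atTop, Y ω n ≠ q n - 1 := by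
      intro hcon
      simp only [not_not] at hcon
      obtain ⟨N, hN⟩ := eventually_atTop.1 hcon
      have hne : ∀ n, max N 1 ≤ n → ω n ≠ 0 := by
        intro n hn h0
        have h1 := hN n (le_trans (le_max_left _ _) hn)
        have h2 := hq n (le_trans (le_max_right _ _) hn)
        simp only [hYdef] at h1
        rw [reset_of_ne_top (by omega) (by omega)] at h1
        omega
      have hb : ∀ n, (blockCount ω (fun _ : Fin 1 => 0) n : ℝ) ≤ (max N 1 : ℕ) := by
        intro n
        have : blockCount ω (fun _ : Fin 1 => 0) n ≤ (Finset.range (max N 1)).card := by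
          unfold blockCount
          apply Finset.card_le_card
          intro i hi
          rw [Finset.mem_filter] at hi
          rw [Finset.mem_range]
          by_contra hcon2
          push Not at hcon2
          have := hi.2 0
          simp only [Fin.val_zero, add_zero] at this
          exact hne i hcon2 this
        rw [Finset.card_range] at this
        exact_mod_cast this
      have h1 := hnormal 1 le_rfl (fun _ => 0)
      have h2 : Tendsto (fun n => (blockCount ω (fun _ : Fin 1 => 0) n : ℝ) / blockMass q 1 n) atTop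
          (𝓝 0) := by
        have h3 : Tendsto (fun n => ((max N 1 : ℕ) : ℝ) / blockMass q 1 n) atTop (𝓝 0) :=
          Tendsto.const_div_atTop (hdiv 1 le_rfl) _
        refine squeeze_zero' ?_ ?_ h3
        · filter_upwards [(hdiv 1 le_rfl).eventually_gt_atTop 0] with n hn
          positivity
        · filter_upwards [(hdiv 1 le_rfl).eventually_gt_atTop 0] with n hn
          have := hb n
          gcongr
      have := tendsto_nhds_unique h1 h2
      norm_num at this
    have hexp : IsExpansion q (Y ω) (cantorSum q (Y ω)) := isExpansion_cantorSum hq (hYlt ω) hfreq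
    constructor
    · simp only [Set.mem_iInter, Set.mem_Ici]
      intro k hk
      refine ⟨Y ω, hexp, fun B => ?_⟩
      obtain ⟨m, hm⟩ : ∃ m, ∀ s, B s ≤ m :=
        ⟨Finset.univ.sup B, fun s => Finset.le_sup (Finset.mem_univ s)⟩
      obtain ⟨i₀, hi₀, hi₀'⟩ := eventually_lt_of_limit hlim (2 * m + 2)
      refine tendsto_of_same (Y ω) ω B i₀ ?_ (hdiv k (by omega)) (hnormal k (by omega) B)
      intro i hi
      exact reset_match hvalid hk B m hm i (by omega) (fun j hj => hi₀' j (by omega))
    · simp only [Set.mem_iUnion, Set.mem_Ico, not_exists]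
      rintro j ⟨hj1, hj2⟩ ⟨E, hE, hEB⟩
      have h1 := hEB (fun _ => 0)
      have heq : ∀ n, blockCount E (fun _ : Fin j => 0) n = blockCount (Y ω) (fun _ : Fin j => 0) n := by
        intro n
        unfold blockCount
        congr 1
        apply Finset.filter_congr
        intro i hi
        rw [Finset.mem_Icc] at hi
        constructor
        · intro h s; rw [← hE.unique hq hexp (i + s) (by omega)]; exact h s
        · intro h s; rw [hE.unique hq hexp (i + s) (by omega)]; exact h s
      simp only [heq] at h1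
      -- shift by one
      have h1' := h1.comp (tendsto_add_atTop_nat 1)
      have h2 := (hnormal j hj1 (fun _ => 0)).comp (tendsto_add_atTop_nat 1)
      obtain ⟨c, hc⟩ := hrunlow j
      have hM1 : Tendsto (fun n => blockMass q j (n + 1)) atTop atTop :=
        (hdiv j hj1).comp (tendsto_add_atTop_nat 1)
      -- lower bound for the ratio
      have h3 : Tendsto (fun n => (blockCount ω (fun _ : Fin j => 0) (n + 1) : ℝ) / blockMass q j (n + 1)
          + (1/2) * ((1/16) - c * (blockMass q j (n + 1))⁻¹)) atTop (𝓝 (1 + (1/2) * (1/16 - c * 0))) := by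
        refine h2.add (Tendsto.const_mul _ (tendsto_const_nhds.sub ?_))
        exact (tendsto_inv_atTop_zero.comp hM1).const_mul c
      have hle : ∀ᶠ n in atTop, (blockCount ω (fun _ : Fin j => 0) (n + 1) : ℝ) / blockMass q j (n + 1)
          + (1/2) * ((1/16) - c * (blockMass q j (n + 1))⁻¹) ≤
          (blockCount (Y ω) (fun _ : Fin j => 0) (n + 1) : ℝ) / blockMass q j (n + 1) := by
        have hhalf : ∀ᶠ n in atTop, (1/2 : ℝ) < (∑ i ∈ Icc 1 n,
            (patt (j + 2) (runPat q j) i).indicator (fun _ => (1:ℝ)) ω) /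
            ∑ i ∈ Icc 1 n, (prodP q).real (patt (j + 2) (runPat q j) i) :=
          (hrun j hj1).eventually_const_lt (by norm_num)
        filter_upwards [hc, hhalf, hM1.eventually_gt_atTop 0,
          (hrundiv j hj1).eventually_gt_atTop 0] with n hn1 hn2 hn3 hn4
        rw [lt_div_iff₀ hn4] at hn2
        have h4 := reset_zero_count (ℓ := ℓ) (q := q) hq (ω := ω) hj1 hj2 n
        rw [le_div_iff₀ hn3, add_mul, div_mul_cancel₀ _ hn3.ne']
        have h5 : (1/2 : ℝ) * ((1/16) - c * (blockMass q j (n + 1))⁻¹) * blockMass q j (n + 1) =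
            (1/2) * ((1/16) * blockMass q j (n + 1) - c) := by
          field_simp
        rw [h5]
        have h6 : (1/2 : ℝ) * ((1/16) * blockMass q j (n + 1) - c) ≤
            ∑ i ∈ Icc 1 n, (patt (j + 2) (runPat q j) i).indicator (fun _ => (1:ℝ)) ω := by
          refine le_trans ?_ hn2.le
          gcongr
        show (blockCount ω (fun _ : Fin j => 0) (n + 1) : ℝ) + _ ≤
          (blockCount (reset ℓ q ω) (fun _ : Fin j => 0) (n + 1) : ℝ)
        linarith
      have h4 := le_of_tendsto_of_tendsto h3 h1' hle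
      norm_num at h4

end Pool.Agent.Helper1.Cantor
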